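import Pool.Agent.Lib.MP_361a6f_ag.FL.C.Phi

/-!
# The matrix of a symmetry lies in the group
-/

open CategoryTheory AlgebraicGeometry MonoidalCategory CartesianMonoidalCategory

universe u v w

set_option autoImplicit false
set_option linter.unusedSectionVars false

namespace Pool.Agent.Lib.MP_361a6f_ag.FL

open Pool.Agent.Lib.MP_361a6f_ag.H3 Pool.Agent.Lib.MP_361a6f_ag.SQ
  Pool.Agent.Lib.MP_361a6f_ag.IP2 Pool.Agent.Lib.MP_361a6f_ag.PP

namespace PhiF

/-! ### One factor -/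

section one

variable {k : Type u} [Field k] {W : CohomologyData.{u, 0, w} k ℂ} {𝒱 : VarietyClass k}
  (hW : IsWeilCohomology W 𝒱) {X : Sch k} {n : ℕ} (hX : 𝒱.mem X n) {ξ : W.coh X}
  {q : ℚ} {s : ℂ} (hs : s ≠ 0) (hs2 : s ^ 2 = (q : ℂ)) (hsr : starRingEnd ℂ s = s)
  {F : W.coh X →ₗ[ℂ] W.coh X} (hF : SymStr W X n ξ q F)
  {j K : W.coh X →ₛₗ[starRingEnd ℂ] W.coh X}
  (hK : ∀ (d : ℕ) (z : W.coh X), z ∈ W.gr X d → K z = (s ^ d)⁻¹ • F (j z))

include hW hX hF hK in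
theorem one_mul_K (jm : ∀ x y, j (x * y) = j x * j y) (x y : W.coh X) :
    K (x * y) = K x * K y := by
  have hFm : ∀ x y : W.coh X, F (x * y) = F x * F y := hF.cup
  refine hW.hom_induction hX (P := fun x => K (x * y) = K x * K y) x ?_ ?_ ?_
  · intro d x hx
    refine hW.hom_induction hX (P := fun y => K (x * y) = K x * K y) y ?_ ?_ ?_
    · intro e y hy
      rw [hK _ _ (hW.mul_gr hX hx hy), hK _ _ hx, hK _ _ hy, jm, hFm, smul_mul_smul_comm,
        pow_add, mul_inv]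
    · rw [mul_zero, map_zero, mul_zero]
    · intro y y' h h'
      rw [mul_add, map_add, map_add, h, h', mul_add]
  · rw [zero_mul, map_zero, zero_mul]
  · intro y y' h h'
    rw [add_mul, map_add, map_add, h, h', add_mul]

include hW hX hs hs2 hF hK in
theorem one_tr_K (jt : ∀ x, W.tr X (j x) = starRingEnd ℂ (W.tr X x)) (x : W.coh X) :
    W.tr X (K x) = starRingEnd ℂ (W.tr X x) := by
  have hFt : ∀ x : W.coh X, W.tr X (F x) = (q : ℂ) ^ n * W.tr X x := hF.tr
  refine hW.hom_induction hX (P := fun x => W.tr X (K x) = starRingEnd ℂ (W.tr X x)) x ?_ ?_ ?_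
  · intro d x hx
    rw [hK _ _ hx, map_smul, smul_eq_mul, hFt, jt]
    by_cases hd : d = 2 * n
    · rw [hd, pow_mul, hs2, ← mul_assoc, inv_mul_cancel₀, one_mul]
      rw [← hs2]
      exact pow_ne_zero _ (pow_ne_zero _ hs)
    · rw [hW.tr_gr hX hx hd, map_zero, mul_zero, mul_zero]
  · rw [map_zero, map_zero, map_zero]
  · intro y y' h h'
    rw [map_add, map_add, map_add, map_add, h, h']

include hs hs2 hF hK in
theorem one_pol_K (hξ : ξ ∈ W.gr X 2) (jξ : j ξ = ξ) : K ξ = ξ := by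
  have h3 : F ξ = (q : ℂ) • ξ := hF.pol
  have hq : (q : ℂ) ≠ 0 := by
    rw [← hs2]
    exact pow_ne_zero _ hs
  rw [hK 2 ξ hξ, jξ, h3, hs2, smul_smul, inv_mul_cancel₀ hq, one_smul]

include hW hX in
theorem one_psi_K (hξ : ξ ∈ W.alg X 1) {Lam : Module.End ℂ (W.coh X)} (D : LamData W X n ξ Lam)
    (km : ∀ x y, K (x * y) = K x * K y) (kg : ∀ i x, x ∈ W.gr X i → K x ∈ W.gr X i)
    (kξ : K ξ = ξ) (kt : ∀ x, W.tr X (K x) = starRingEnd ℂ (W.tr X x)) (x y : W.coh X) :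
    psi W X ξ Lam D.slm.internal (K x) (K y)
      = starRingEnd ℂ (psi W X ξ Lam D.slm.internal x y) := by
  rw [psi, ← HrPsi.j_star hW hX hξ D K km kg kξ, ← km, kt]
  rfl

/-- the trace of `j x`, for a real structure `j` -/
theorem tr_of_rs {Lam : Module.End ℂ (W.coh X)} (R : IsRS W X n ξ Lam j) (x : W.coh X) :
    W.tr X (j x) = starRingEnd ℂ (W.tr X x) := by
  have h := R.tr x 1
  rwa [R.one, mul_one, mul_one] at h

include hW hX in
/-- an operator identity, checked in every degree -/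
theorem comm_of_gr {J : W.coh X →ₛₗ[starRingEnd ℂ] W.coh X}
    (h : ∀ (d : ℕ) (z : W.coh X), z ∈ W.gr X d → J (F z) = F (J z)) (z : W.coh X) :
    J (F z) = F (J z) := by
  refine hW.hom_induction hX (P := fun z => J (F z) = F (J z)) z h ?_ ?_
  · simp only [map_zero]
  · intro y y' h h'
    simp only [map_add, h, h']

end one


variable {k : Type u} [Field k] {W : CohomologyData.{u, 0, w} k ℂ} {𝒱 : VarietyClass k} {m : ℕ}
  (H : Host W 𝒱 m) (ge : H.GeFacts) (hsta : StaStatement.{w}) (a1 : Alg1) (a2 : Alg2)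
  {F : ∀ P : Prd m, W.coh (P.obj H.X) →ₗ[ℂ] W.coh (P.obj H.X)} {q : ℚ} {s : ℂ} (hs : s ≠ 0)
  (hs2 : s ^ 2 = (q : ℂ)) (hsr : starRingEnd ℂ s = s)
  (hF : ∀ a, SymStr W (H.X a) (H.n a) (H.ξ a) q (F (.leaf a)))
  (hFp : ∀ (P Q : Prd m) (y : W.coh (P.obj H.X)) (z : W.coh (Q.obj H.X)),
    F (.prod P Q) (W.ext y z) = W.ext (F P y) (F Q z))
  {J : ∀ P : Prd m, W.coh (P.obj H.X) →ₛₗ[starRingEnd ℂ] W.coh (P.obj H.X)}
  (hJ : H.J0Facts J)

theorem gam_apply (i j : H.I) : gam H s F i j = (s ^ (H.D.typ j).2)⁻¹ *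
    H.tc (.leaf (H.D.typ i).1) (F (.leaf (H.D.typ i).1) (H.e (H.D.typ i).1 j)) (fun _ => i) := rfl

include ge hsta hF in
theorem gam_letters (i j : H.I) (h : H.D.typ i ≠ H.D.typ j) : gam H s F i j = 0 := by
  rw [gam_apply]
  by_cases h1 : (H.D.typ j).1 = (H.D.typ i).1
  · have h2 : (H.D.typ i).2 ≠ (H.D.typ j).2 := fun h2 => h (Prod.ext h1.symm h2)
    have h3 : F (.leaf (H.D.typ i).1) (H.e (H.D.typ i).1 j)
        ∈ W.gr (H.X (H.D.typ i).1) (H.D.typ j).2 := (hF _).deg _ _ (H.e_gr _ j)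
    rw [GJ.tc_gr H ge hsta (.leaf (H.D.typ i).1) h3 (fun _ => i), mul_zero]
    refine fun h4 => h2 ?_
    rw [← h4]
    exact (Fin.sum_univ_one (fun _ : Fin 1 => (H.D.typ i).2)).symm
  · have h4 : F (.leaf (H.D.typ i).1) (H.e (H.D.typ i).1 j) = 0 :=
      (congrArg _ (H.e_ne _ j h1)).trans (map_zero (F (.leaf (H.D.typ i).1)))
    rw [h4, map_zero, Pi.zero_apply, mul_zero]

include ge hs hsta hF in
theorem tc_F_e (a : Fin m) (j : H.I) (w : Fin (Prd.leaf a).size → H.I) :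
    H.tc (.leaf a) (F (.leaf a) (H.e a j)) w = if (H.D.typ j).1 = a then
      s ^ (H.D.typ j).2 * gam H s F (w ⟨0, Nat.one_pos⟩) j else 0 := by
  split_ifs with hj
  · by_cases hw : (H.D.typ (w ⟨0, Nat.one_pos⟩)).1 = a
    · have h1 : gam H s F (w ⟨0, Nat.one_pos⟩) j = (s ^ (H.D.typ j).2)⁻¹ *
          H.tc (.leaf a) (F (.leaf a) (H.e a j)) w := by
        have h2 : (fun _ => w ⟨0, Nat.one_pos⟩ : Fin (Prd.leaf a).size → H.I) = w := by
          funext i
          exact congrArg w (Subsingleton.elim (α := Fin 1) _ _)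
        have h3 : ∀ (b : Fin m) (i : H.I), b = a → (s ^ (H.D.typ j).2)⁻¹ *
            H.tc (.leaf b) (F (.leaf b) (H.e b j)) (fun _ => i) = (s ^ (H.D.typ j).2)⁻¹ *
            H.tc (.leaf a) (F (.leaf a) (H.e a j)) (fun _ => i) := by
          rintro _ i rfl
          rfl
        rw [gam_apply, h3 _ _ hw]
        exact congrArg (fun u => (s ^ (H.D.typ j).2)⁻¹ *
          H.tc (.leaf a) (F (.leaf a) (H.e a j)) u) h2
      rw [h1, ← mul_assoc, mul_inv_cancel₀ (pow_ne_zero _ hs), one_mul]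
    · have h1 : H.Off (.leaf a) w := ⟨⟨0, Nat.one_pos⟩, hw⟩
      rw [ge.tc_off _ _ _ h1, gam_letters H ge hsta hF, mul_zero]
      intro h
      exact hw (by rw [h, hj])
  · have h4 : F (.leaf a) (H.e a j) = 0 :=
      (congrArg _ (H.e_ne a j hj)).trans (map_zero (F (.leaf a)))
    rw [h4, map_zero, Pi.zero_apply]

include ge in
theorem tc_E (P : Prd m) (w : Fin P.size → H.I) (hw : ¬ H.Off P w) :
    H.tc P (H.E P w) = Pi.single w 1 := by
  have h := ge.tc_sum P (Pi.single w 1) fun w' hw' => by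
    rw [Pi.single_eq_of_ne]
    rintro rfl
    exact hw hw'
  rw [Finset.sum_eq_single w] at h
  · rwa [Pi.single_eq_same, one_smul] at h
  · intro w' _ hw'
    rw [Pi.single_eq_of_ne hw', zero_smul]
  · intro h'
    exact absurd (Finset.mem_univ w) h'

include ge hs hsta a1 a2 hF hFp in
theorem tc_F_E (P : Prd m) : ∀ w : Fin P.size → H.I,
    H.tc P (F P (H.E P w)) = s ^ (∑ i, (H.D.typ (w i)).2) • gT (gam H s F) (H.tc P (H.E P w)) := by
  induction P with
  | leaf a =>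
    intro w
    by_cases hw : H.Off (.leaf a) w
    · have h0 : H.E (.leaf a) w = 0 := ge.E_off _ _ hw
      rw [h0, map_zero, map_zero, gT_zero _ a1, smul_zero]
    · have hw0 : (H.D.typ (w ⟨0, Nat.one_pos⟩)).1 = a := by
        by_contra hcon
        exact hw ⟨⟨0, Nat.one_pos⟩, hcon⟩
      rw [tc_E H ge _ _ hw]
      funext w'
      have h1 : H.tc (.leaf a) (F (.leaf a) (H.E (.leaf a) w)) w'
          = H.tc (.leaf a) (F (.leaf a) (H.e a (w ⟨0, Nat.one_pos⟩))) w' := rfl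
      rw [h1, tc_F_e H ge hsta hs hF a _ w', if_pos hw0, Pi.smul_apply, smul_eq_mul]
      have h2 : ∑ i, (H.D.typ (w i)).2 = (H.D.typ (w ⟨0, Nat.one_pos⟩)).2 :=
        Fin.sum_univ_one (fun i : Fin 1 => (H.D.typ (w i)).2)
      rw [h2]
      congr 1
      refine (Eq.trans ?_ (gT_one_apply (gam H s F) (Pi.single w 1) w').symm)
      rw [Finset.sum_eq_single (w ⟨0, Nat.one_pos⟩)]
      · have h3 : (fun _ : Fin 1 => w ⟨0, Nat.one_pos⟩) = w := by
          funext i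
          exact congrArg w (Subsingleton.elim (α := Fin 1) _ _)
        rw [h3, Pi.single_eq_same, mul_one]
        rfl
      · intro i _ hi
        rw [Pi.single_eq_of_ne, mul_zero]
        intro h
        exact hi (congrFun h ⟨0, Nat.one_pos⟩)
      · intro h'
        exact absurd (Finset.mem_univ _) h'
  | prod P Q hP hQ =>
    intro w
    have h1 : F (.prod P Q) (H.E (.prod P Q) w)
        = W.pull (fst (P.obj H.X) (Q.obj H.X)) (F P (H.E P fun i => w (Fin.castAdd Q.size i)))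
          * W.pull (snd (P.obj H.X) (Q.obj H.X)) (F Q (H.E Q fun i => w (Fin.natAdd P.size i))) :=
      hFp P Q _ _
    have h2 : H.tc (.prod P Q) (F (.prod P Q) (H.E (.prod P Q) w))
        = outer (H.tc P (F P (H.E P fun i => w (Fin.castAdd Q.size i))))
          (H.tc Q (F Q (H.E Q fun i => w (Fin.natAdd P.size i)))) :=
      (congrArg _ h1).trans (ge.tc_outer P Q _ _)
    have h3 : H.tc (.prod P Q) (H.E (.prod P Q) w)
        = outer (H.tc P (H.E P fun i => w (Fin.castAdd Q.size i)))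
          (H.tc Q (H.E Q fun i => w (Fin.natAdd P.size i))) := ge.tc_outer P Q _ _
    have h4 : gT (gam H s F) (H.tc (.prod P Q) (H.E (.prod P Q) w))
        = outer (gT (gam H s F) (H.tc P (H.E P fun i => w (Fin.castAdd Q.size i))))
          (gT (gam H s F) (H.tc Q (H.E Q fun i => w (Fin.natAdd P.size i)))) :=
      (congrArg _ h3).trans (a2.outer_gT _ _ _)
    have h5 : ∑ i, (H.D.typ (w i)).2 = ∑ i, (H.D.typ (w (Fin.castAdd Q.size i))).2
        + ∑ i, (H.D.typ (w (Fin.natAdd P.size i))).2 :=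
      Fin.sum_univ_add (fun i : Fin (P.size + Q.size) => (H.D.typ (w i)).2)
    rw [h2, h4, h5, hP, hQ]
    funext w'
    change s ^ _ * _ * (s ^ _ * _) = s ^ _ * (_ * _)
    rw [pow_add]
    ring

include ge hs hsta a1 a2 hF hFp in
/-- a symmetry acts on the coordinates by its matrix -/
theorem tc_F (P : Prd m) {d : ℕ} {z : W.coh (P.obj H.X)} (hz : z ∈ W.gr (P.obj H.X) d) :
    H.tc P (F P z) = s ^ d • gT (gam H s F) (H.tc P z) := by
  have h1 : F P z = ∑ w, H.tc P z w • F P (H.E P w) := by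
    conv_lhs => rw [ge.expand P z]
    rw [map_sum]
    exact Finset.sum_congr rfl fun w _ => map_smul _ _ _
  have h2 : gT (gam H s F) (H.tc P z)
      = ∑ w, H.tc P z w • gT (gam H s F) (H.tc P (H.E P w)) := by
    have h3 : H.tc P z = ∑ w, H.tc P z w • H.tc P (H.E P w) := by
      conv_lhs => rw [ge.expand P z]
      rw [map_sum]
      exact Finset.sum_congr rfl fun w _ => map_smul _ _ _
    conv_lhs => rw [h3]
    rw [gT_sum _ a1]
    exact Finset.sum_congr rfl fun w _ => a1.gT_smul _ _ _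
  rw [h1, map_sum, h2, Finset.smul_sum]
  refine Finset.sum_congr rfl fun w _ => ?_
  rw [map_smul, tc_F_E H ge hsta a1 a2 hs hF hFp P w, smul_comm]
  by_cases hw : ∑ l, (H.D.typ (w l)).2 = d
  · rw [hw]
  · rw [GJ.tc_gr H ge hsta P hz w hw, zero_smul, smul_zero, smul_zero]

include ge hs hsta a1 a2 hF hFp hJ in
/-- the antilinear operators are `s^(-d) F J` in degree `d` -/
theorem K_eq (P : Prd m) {d : ℕ} {z : W.coh (P.obj H.X)} (hz : z ∈ W.gr (P.obj H.X) d) :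
    K H a1 (gam H s F) P z = (s ^ d)⁻¹ • F P (J P z) := by
  refine ge.inj P ?_
  rw [tc_K H a1 (gam_letters H ge hsta hF) ge, map_smul,
    tc_F H ge hsta a1 a2 hs hF hFp P ((hJ.rs P).gr d z hz), hJ.tc, smul_smul,
    inv_mul_cancel₀ (pow_ne_zero _ hs), one_smul]

include ge hs hsta a2 hF hFp hJ in
theorem K_mul_leaf (a : Fin m) (x y : W.coh (H.X a)) :
    K H a1 (gam H s F) (.leaf a) (x * y)
      = K H a1 (gam H s F) (.leaf a) x * K H a1 (gam H s F) (.leaf a) y :=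
  one_mul_K H.hW (H.mem a) (hF a)
    (fun d z hz => K_eq H ge hsta a1 a2 hs hF hFp hJ (.leaf a) hz) (hJ.mul (.leaf a)) x y

include ge hs hs2 hsta a2 hF hFp hJ in
theorem K_tr_leaf (a : Fin m) (x : W.coh (H.X a)) :
    W.tr (H.X a) (K H a1 (gam H s F) (.leaf a) x) = starRingEnd ℂ (W.tr (H.X a) x) :=
  one_tr_K H.hW (H.mem a) hs hs2 (hF a)
    (fun d z hz => K_eq H ge hsta a1 a2 hs hF hFp hJ (.leaf a) hz)
    (tr_of_rs (hJ.rs (.leaf a))) x

include ge hs hs2 hsta a2 hF hFp hJ in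
theorem K_pol (a : Fin m) : K H a1 (gam H s F) (.leaf a) (H.ξ a) = H.ξ a :=
  one_pol_K hs hs2 (hF a)
    (fun d z hz => K_eq H ge hsta a1 a2 hs hF hFp hJ (.leaf a) hz)
    (H.hW.alg_gr (H.mem a) (j := 1) (H.ξ_alg a)) (Jl85.pol_fixed (hJ.rs (.leaf a)))

include ge hs hs2 hsta a2 hF hFp hJ in
theorem kfactsF : ConjF.KFacts H (gam H s F) (K H a1 (gam H s F)) :=
  kfacts H a1 a2 (gam_letters H ge hsta hF) ge hsta (K_mul_leaf H ge hsta a1 a2 hs hF hFp hJ)
    (K_tr_leaf H ge hsta a1 a2 hs hs2 hF hFp hJ) (K_pol H ge hsta a1 a2 hs hs2 hF hFp hJ)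

include ge hs hs2 hsta a2 hF hFp hJ in
/-- the classes fixed by `J` and multiplied by `q^l` by the symmetry are fixed -/
theorem K_fix (P : Prd m) (l : ℕ) (z : W.coh (P.obj H.X)) (hz : z ∈ W.alg (P.obj H.X) l)
    (hjz : J P z = z) (hFz : F P z = (q : ℂ) ^ l • z) : K H a1 (gam H s F) P z = z := by
  rw [K_eq H ge hsta a1 a2 hs hF hFp hJ P (H.hW.alg_gr (H.memP P) hz), hjz, hFz, smul_smul,
    pow_mul, hs2, inv_mul_cancel₀, one_smul]
  rw [← hs2]
  exact pow_ne_zero _ (pow_ne_zero _ hs)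

include ge hs hs2 hsta a1 a2 hF hFp hJ in
/-- the matrix of a symmetry lies in the group -/
theorem gam_G : IsG H.D (gam H s F) := by
  refine ⟨gam_letters H ge hsta hF, ?_⟩
  have hKf := kfactsF H ge hsta a1 a2 hs hs2 hF hFp hJ
  have hl := gam_letters H (s := s) ge hsta hF
  ext i j
  have hPsi : ∀ a b, Psi H.D a b = if b = H.D.τ a then H.D.s a else 0 := fun a b => rfl
  have e1 : ((gam H s F).transpose * Psi H.D * gam H s F) i j
      = ∑ l, H.D.s l * (gam H s F l i * gam H s F (H.D.τ l) j) := by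
    rw [Matrix.mul_assoc, Matrix.mul_apply]
    refine Finset.sum_congr rfl fun l _ => ?_
    rw [Matrix.transpose_apply, Matrix.mul_apply, Finset.sum_eq_single (H.D.τ l)]
    · rw [hPsi, if_pos rfl]
      ring
    · intro b _ hb
      rw [hPsi, if_neg hb, zero_mul]
    · intro h
      exact absurd (Finset.mem_univ _) h
  rw [e1, hPsi]
  by_cases hij : (H.D.typ i).1 = (H.D.typ j).1
  swap
  · rw [if_neg, Finset.sum_eq_zero]
    · intro l _
      by_cases h1 : H.D.typ l = H.D.typ i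
      · rw [hl (H.D.τ l) j, mul_zero, mul_zero]
        rw [H.D.typ_τ]
        intro h2
        exact hij (by rw [← h1, h2])
      · rw [hl l i h1, zero_mul, mul_zero]
    · rintro rfl
      exact hij (by rw [H.D.typ_τ])
  obtain ⟨a, ha⟩ : ∃ a, a = (H.D.typ i).1 := ⟨_, rfl⟩
  have hi : (H.D.typ i).1 = a := ha.symm
  have hj : (H.D.typ j).1 = a := by rw [ha, hij]
  obtain ⟨x, hx⟩ := Jl85.surj_of_rs H (hJ.rs (.leaf a)) (H.e a i)
  obtain ⟨y, hy⟩ := Jl85.surj_of_rs H (hJ.rs (.leaf a)) (H.e a j)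
  -- `K` preserves the form `ψ` up to conjugation
  have hψ : H.psiP (.leaf a) (K H a1 (gam H s F) (.leaf a) x) (K H a1 (gam H s F) (.leaf a) y)
      = starRingEnd ℂ (H.psiP (.leaf a) x y) :=
    one_psi_K H.hW (H.mem a) (H.ξ_alg a) (H.lam a) (hKf.mul (.leaf a)) (hKf.gr (.leaf a))
      (hKf.pol a) (K_tr_leaf H ge hsta a1 a2 hs hs2 hF hFp hJ a) x y
  have hψJ : H.psiP (.leaf a) (J (.leaf a) x) (J (.leaf a) y)
      = starRingEnd ℂ (H.psiP (.leaf a) x y) := by
    rw [← ge.psi_tc, ← ge.psi_tc, hJ.tc, hJ.tc, a1.psiT_jT_jT]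
  rw [← hψJ, hx, hy] at hψ
  have hE : ∀ l : H.I, H.e a l = H.E (.leaf a) (fun _ => l) := fun l => rfl
  have hoff : ∀ l : H.I, (H.D.typ l).1 = a → ¬ H.Off (.leaf a) (fun _ => l) := by
    rintro l hl' ⟨_, h⟩
    exact h hl'
  have h2 : H.psiP (.leaf a) (H.e a i) (H.e a j) = if j = H.D.τ i then H.D.s i else 0 :=
    H.e_psi a i j hi hj
  rw [h2] at hψ
  rw [← hψ, ← ge.psi_tc, hKf.tc, hKf.tc, ← hJ.tc, ← hJ.tc, hx, hy, hE i, hE j,
    tc_E H ge _ _ (hoff i hi), tc_E H ge _ _ (hoff j hj)]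
  have h3 : ∀ l : H.I, ∀ w : Fin 1 → H.I, gT (gam H s F) (Pi.single (fun _ => l) 1 : Ten H.I 1) w
      = gam H s F (w 0) l := by
    intro l w
    rw [gT_one_apply, Finset.sum_eq_single l]
    · rw [Pi.single_eq_same, mul_one]
    · intro b _ hb
      rw [Pi.single_eq_of_ne, mul_zero]
      intro h
      exact hb (congrFun h 0)
    · intro h
      exact absurd (Finset.mem_univ _) h
  have h4 : psiT H.D (gT (gam H s F) (Pi.single (fun _ => i) 1 : Ten H.I 1))
      (gT (gam H s F) (Pi.single (fun _ => j) 1 : Ten H.I 1))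
      = ∑ l, H.D.s l * (gam H s F l i * gam H s F (H.D.τ l) j) := by
    rw [psiT]
    refine (Equiv.sum_comp (Equiv.funUnique (Fin 1) H.I).symm _).symm.trans ?_
    refine Finset.sum_congr rfl fun l _ => ?_
    rw [h3, h3, sg, Fin.prod_univ_one]
    rfl
  exact h4.symm

/-! ### Commutation with the conjugate of `J₀` -/

variable {g : Matrix H.I H.I ℂ} (hg : IsG H.D g)
  (hu : (g⁻¹ * gam H s F * g).conjTranspose * (g⁻¹ * gam H s F * g) = 1)

include ge hs hs2 hsta a1 a2 hF hFp hJ hg hu in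
theorem JT_gam {L : ℕ} (u : Ten H.I L) : GJ.JT H.D g (gT (gam H s F) u)
    = gT (gam H s F) (GJ.JT H.D g u) := by
  have hG := gam_G H ge hsta a1 a2 hs hs2 hF hFp hJ
  have hi := a1.G_inv H.D g hg
  have hK : IsK H.D (g⁻¹ * gam H s F * g) :=
    ⟨a1.G_mul _ _ _ (a1.G_mul _ _ _ hi.1 hG) hg, hu⟩
  rw [GJ.JT, GJ.JT]
  have h1 : gT g⁻¹ (gT (gam H s F) u) = gT (g⁻¹ * gam H s F * g) (gT g⁻¹ u) := by
    rw [← a1.gT_mul, ← a1.gT_mul]
    congr 1
    rw [Matrix.mul_assoc, hi.2.1, Matrix.mul_one]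
  rw [h1, a1.jT_gT _ _ _ hK, ← a1.gT_mul, ← a1.gT_mul]
  congr 1
  rw [← Matrix.mul_assoc, ← Matrix.mul_assoc, hi.2.1, Matrix.one_mul]

include ge hs hs2 hsr hsta a2 hF hFp hJ hg hu in
/-- the conjugate commutes with the symmetry -/
theorem J_comm_F (a : Fin m) (z : W.coh (H.X a)) :
    GJ.J H a1 g (.leaf a) (F (.leaf a) z) = F (.leaf a) (GJ.J H a1 g (.leaf a) z) := by
  refine comm_of_gr H.hW (H.mem a) (F := F (.leaf a)) (J := GJ.J H a1 g (.leaf a)) ?_ z
  intro d z hz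
  refine ge.inj (.leaf a) ?_
  have e1 := tc_F H ge hsta a1 a2 hs hF hFp (.leaf a) hz
  have e2 := tc_F H ge hsta a1 a2 hs hF hFp (.leaf a) (GJ.J_gr H a1 hg ge hsta (.leaf a) d z hz)
  refine (GJ.tc_J H a1 hg ge (.leaf a) (F (.leaf a) z)).trans ?_
  refine Eq.trans ?_ e2.symm
  rw [e1, GJ.JT_smul H.D g a1, JT_gam H ge hsta a1 a2 hs hs2 hF hFp hJ hg hu,
    GJ.tc_J H a1 hg ge, map_pow, hsr]

end PhiF

end Pool.Agent.Lib.MP_361a6f_ag.FL
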