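import Pool.Agent.Lib.MP_361a6f_ag.FL.B.Stat

/-!
# Hodge-Riemann structures with a bounded set of symmetries: the definitions used in the statement
-/

open CategoryTheory AlgebraicGeometry MonoidalCategory CartesianMonoidalCategory

universe u v w

namespace Pool.Agent.Lib.MP_361a6f_ag.FL

open Pool.Agent.Lib.MP_361a6f_ag.H3 Pool.Agent.Lib.MP_361a6f_ag.SQ
  Pool.Agent.Lib.MP_361a6f_ag.PP

noncomputable section

variable {k : Type u} [Field k] {m : ℕ}

/-- A symmetry of weight `q` of the cohomology of `(X, ξ)`: a linear map `φ` that is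
multiplicative and preserves the degree, with `φ ξ = q ξ` and `Tr(φ x) = q^n Tr(x)`. For instance
`f^*` for an endomorphism `f` of `X` of degree `q^n` with `f^* ξ = q ξ`. -/
structure SymStr (W : CohomologyData.{u, 0, w} k ℂ) (X : Sch k) (n : ℕ) (ξ : W.coh X) (q : ℚ)
    (φ : W.coh X →ₗ[ℂ] W.coh X) : Prop where
  cup : ∀ x y, φ (W.cup x y) = W.cup (φ x) (φ y)
  deg : ∀ i x, W.Deg X i x → W.Deg X i (φ x)
  pol : φ ξ = W.scal (q : ℂ) ξ
  tr : ∀ x, W.Tr (φ x) = (q : ℂ) ^ n * W.Tr x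

/-- There is a positive definite sesquilinear form `h` on the cohomology of `X` such that
`h(φ y, φ z) = q^i h(y, z)` for all `y`, `z` of degree `i`, for all members `(q, φ)` of a family. -/
def UnitForm (W : CohomologyData.{u, 0, w} k ℂ) (X : Sch k) {ι : Type} (q : ι → ℚ)
    (φ : ι → (W.coh X →ₗ[ℂ] W.coh X)) : Prop :=
  ∃ h : W.coh X →ₛₗ[starRingEnd ℂ] W.coh X →ₗ[ℂ] ℂ,
    (∀ y, y ≠ 0 → ∃ c : ℝ, 0 < c ∧ h y y = (c : ℂ)) ∧
    ∀ x i y z, W.Deg X i y → W.Deg X i z → h (φ x y) (φ x z) = (q x : ℂ) ^ i * h y z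

/-- The classes on the products of the `X_a` generated by the algebraic classes of codimension at
most `r P` on the products `P`, by the algebraic classes that are fixed by `J P` and multiplied by
`q^l` (`l` the codimension) by all symmetries, and by the algebraic classes on `X_a × X_a` of the
symmetries, under exterior products, cup products, and pull-backs and push-forwards along the
morphisms that are composed of projections, permutations of the factors and diagonals. -/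
inductive GenF (W : CohomologyData.{u, 0, w} k ℂ) (X : Fin m → Sch k) (n : Fin m → ℕ)
    (r : Prd m → ℕ) (J : ∀ P : Prd m, W.coh (P.obj X) →ₛₗ[starRingEnd ℂ] W.coh (P.obj X))
    {ι : Type} (q : ι → ℚ) (F : ι → ∀ P : Prd m, W.coh (P.obj X) →ₗ[ℂ] W.coh (P.obj X)) :
    (P : Prd m) → W.coh (P.obj X) → Prop
  | alg (P : Prd m) (l : ℕ) (z : W.coh (P.obj X)) : l ≤ r P → W.IsAlg (P.obj X) l z →
      GenF W X n r J q F P z
  | fix (P : Prd m) (l : ℕ) (z : W.coh (P.obj X)) : W.IsAlg (P.obj X) l z → J P z = z →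
      (∀ x, F x P z = W.scal ((q x : ℂ) ^ l) z) → GenF W X n r J q F P z
  | gra (x : ι) (a : Fin m) (z : W.coh ((X a).prod (X a))) : W.IsAlg ((X a).prod (X a)) (n a) z →
      (∀ y, W.pf (Sch.pr₂ (X a) (X a)) (W.cup (W.pb (Sch.pr₁ (X a) (X a)) y) z)
        = F x (.leaf a) y) → GenF W X n r J q F (.prod (.leaf a) (.leaf a)) z
  | ext (P Q : Prd m) (z : W.coh (P.obj X)) (z' : W.coh (Q.obj X)) : GenF W X n r J q F P z →
      GenF W X n r J q F Q z' → GenF W X n r J q F (.prod P Q) (W.ext z z')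
  | cup (P : Prd m) (z z' : W.coh (P.obj X)) : GenF W X n r J q F P z →
      GenF W X n r J q F P z' → GenF W X n r J q F P (W.cup z z')
  | pb (P Q : Prd m) (f : Sch.Mor (P.obj X) (Q.obj X)) (z : W.coh (Q.obj X)) :
      CoordMor X 3 P Q f → GenF W X n r J q F Q z → GenF W X n r J q F P (W.pb f z)
  | pf (P Q : Prd m) (f : Sch.Mor (P.obj X) (Q.obj X)) (z : W.coh (P.obj X)) :
      CoordMor X 3 P Q f → GenF W X n r J q F P z → GenF W X n r J q F Q (W.pf f z)

/-- The `ℂ`-span of these classes. -/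
def spanF (W : CohomologyData.{u, 0, w} k ℂ) (X : Fin m → Sch k) (n : Fin m → ℕ)
    (r : Prd m → ℕ) (J : ∀ P : Prd m, W.coh (P.obj X) →ₛₗ[starRingEnd ℂ] W.coh (P.obj X))
    {ι : Type} (q : ι → ℚ) (F : ι → ∀ P : Prd m, W.coh (P.obj X) →ₗ[ℂ] W.coh (P.obj X))
    (P : Prd m) : Submodule ℂ (W.coh (P.obj X)) :=
  Submodule.span ℂ {z | GenF W X n r J q F P z}

end

/-- Theorem LF. -/
def ThmLFStatement : Prop :=
  ∀ {k : Type u} [Field k] (W : CohomologyData.{u, 0, w} k ℂ) (𝒱 : VarietyClass k)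
    (_ : IsWeilCohomology W 𝒱) {m : ℕ} {X : Fin m → Sch k} {n : Fin m → ℕ}
    (_ : ∀ a, 𝒱.mem (X a) (n a))
    {ξ : ∀ a, W.coh (X a)} (_ : ∀ a, PositiveDivisor W (X a) (n a) (ξ a))
    (_ : ∀ a, HardLefschetz W (X a) (n a) (ξ a))
    (_ : ∀ a, AlgebraicLambda W (X a) (n a) (ξ a))
    (J : ∀ P : Prd m, W.coh (P.obj X) →ₛₗ[starRingEnd ℂ] W.coh (P.obj X))
    (_ : ∀ a, HRStr W (X a) (n a) (ξ a) (J (.leaf a)))
    (_ : ∀ (P Q : Prd m) (y : W.coh (P.obj X)) (x : W.coh (Q.obj X)),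
      J (.prod P Q) (W.ext y x) = W.ext (J P y) (J Q x))
    {ι : Type} (q : ι → ℚ) (_ : ∀ x, 0 < q x)
    (F : ι → ∀ P : Prd m, W.coh (P.obj X) →ₗ[ℂ] W.coh (P.obj X))
    (_ : ∀ x a, SymStr W (X a) (n a) (ξ a) (q x) (F x (.leaf a)))
    (_ : ∀ (x : ι) (P Q : Prd m) (y : W.coh (P.obj X)) (z : W.coh (Q.obj X)),
      F x (.prod P Q) (W.ext y z) = W.ext (F x P y) (F x Q z))
    (_ : ∀ a, UnitForm W (X a) q fun x => F x (.leaf a))
    (r : Prd m → ℕ)
    (_ : ∀ (P : Prd m) (i : ℕ), i ≤ r P → HodgeCodim W (P.obj X) (P.dim n) (P.pol W ξ) i)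
    (P : Prd m) (η : W.coh (P.obj X)) (_ : IsPol W ξ P η),
    HodgeOn W (P.obj X) (P.dim n) η (spanF W X n r J q F P)

end Pool.Agent.Lib.MP_361a6f_ag.FL
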