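import Pool.Agent.Lib.MP_361a6f_ag.FL.Defs

/-!
# Statement of row CAR
-/

open scoped ComplexOrder

namespace Pool.Agent.Lib.MP_361a6f_ag.FL

/-- Row CAR: for a set `S` of tensors fixed by `J₀` and a positive definite matrix `N`, there is an
element `x` of the group that fixes `S`, such that `x⁻¹ f x` is unitary for all `f` in the group
that fix `S` and preserve `N`. -/
def CarStatement : Prop :=
  ∀ {I Λ : Type} [Fintype I] [DecidableEq I] [DecidableEq Λ] (D : Dat I Λ)
    (S : (L : ℕ) → Ten I L → Prop) (_ : ∀ L u, S L u → jT D u = u) (N : Matrix I I ℂ)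
    (_ : N.PosDef), ∃ x, IsG D x ∧ (∀ L u, S L u → gT x u = u) ∧
      ∀ f, IsG D f → (∀ L u, S L u → gT f u = u) → f.conjTranspose * N * f = N →
        (x⁻¹ * f * x).conjTranspose * (x⁻¹ * f * x) = 1

end Pool.Agent.Lib.MP_361a6f_ag.FL
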