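import Mathlib
import Pool.Agent.Lib.MP_361a6f_ag.FL.Alg1
import Pool.Agent.Lib.MP_361a6f_ag.FL.C.CarDef

/-!
# Conjugation of the unitary elements of a stabiliser into the compact form

`b` is a family of tensors fixed by `J₀`, and `G_b` is the group of all `g` with `IsG D g` that
fix `b`. For every positive definite hermitian matrix `M` there is `g` in `G_b` such that
`g⁻¹ f g` is unitary for all `f` in `G_b` that preserve `M` (Cartan's fixed point theorem).
-/

open Matrix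
open scoped MatrixOrder ComplexOrder

namespace Pool.Agent.Lib.MP_361a6f_ag.FL

namespace Car

variable {I Λ : Type} [Fintype I] [DecidableEq I] [DecidableEq Λ] (D : Dat I Λ)

/-! ### Elementary facts -/

theorem eq_of_hT {L : ℕ} {u v : Ten I L} (h : ∀ w, hT u w = hT v w) : u = v := by
  funext w
  have h1 := h (Pi.single w 1)
  simpa [hT, Pi.single_apply] using h1

theorem hT_self_re_eq_zero {L : ℕ} {u : Ten I L} (h : (hT u u).re ≤ 0) : u = 0 := by
  have h1 := alg1.hT_self u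
  rw [h1, Complex.ofReal_re] at h
  have h2 : ∑ w, ‖u w‖ ^ 2 = 0 := le_antisymm h (Finset.sum_nonneg fun w _ => by positivity)
  rw [Finset.sum_eq_zero_iff_of_nonneg fun w _ => by positivity] at h2
  funext w
  have h3 := h2 w (Finset.mem_univ w)
  simpa using h3

omit [DecidableEq I] in
theorem hT_neg_left {L : ℕ} (u v : Ten I L) : hT (-u) v = -hT u v := by
  simp [hT, Finset.sum_neg_distrib]

theorem gT_sub {L : ℕ} (g : Matrix I I ℂ) (u v : Ten I L) :
    gT g (u - v) = gT g u - gT g v := by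
  have h1 := alg1.gT_add g (u - v) v
  rw [sub_add_cancel] at h1
  rw [h1]; abel

theorem psi_real : (Psi D).map (starRingEnd ℂ) = Psi D := by
  ext i j
  by_cases e : j = D.τ i
  · simp only [Matrix.map_apply, Psi, Matrix.of_apply, if_pos e, AL1B.s_conj]
  · simp only [Matrix.map_apply, Psi, Matrix.of_apply, if_neg e, map_zero]

theorem psi_conjTranspose : (Psi D)ᴴ = (Psi D)ᵀ := by
  ext i j
  have h := congrFun (congrFun (psi_real D) j) i
  simpa [Matrix.conjTranspose_apply, Matrix.map_apply] using h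

/-- the sign of the parity -/
def eps (i : I) : ℂ := D.s (D.τ i) * D.s i

theorem eps_typ {i j : I} (h : D.typ i = D.typ j) : eps D i = eps D j := by
  unfold eps
  by_cases ho : D.odd (D.typ i)
  · have h1 := (D.odd_τ i ho).2
    have h2 := (D.odd_τ j (h ▸ ho)).2
    rw [h1, h2, neg_mul, neg_mul, AL1B.s_mul_self, AL1B.s_mul_self]
  · have h1 := D.even_τ i ho
    have h2 := D.even_τ j (h ▸ ho)
    rw [h1.1, h2.1, AL1B.s_mul_self, AL1B.s_mul_self]

theorem eps_mul_self (i : I) : eps D i * eps D i = 1 := by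
  unfold eps
  have h1 := AL1B.s_mul_self D i
  have h2 := AL1B.s_mul_self D (D.τ i)
  calc D.s (D.τ i) * D.s i * (D.s (D.τ i) * D.s i)
      = (D.s (D.τ i) * D.s (D.τ i)) * (D.s i * D.s i) := by ring
    _ = 1 := by rw [h1, h2, one_mul]

theorem psi_transpose : (Psi D)ᵀ = Matrix.diagonal (eps D) * Psi D := by
  ext i j
  rw [Matrix.diagonal_mul]
  simp only [Matrix.transpose_apply, Psi, Matrix.of_apply]
  by_cases e : j = D.τ i
  · subst e
    rw [if_pos (D.τ_τ i).symm, if_pos rfl]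
    unfold eps
    rw [mul_assoc, AL1B.s_mul_self, mul_one]
  · rw [if_neg e, if_neg, mul_zero]
    intro h
    exact e (by rw [h, D.τ_τ])

theorem eps_comm {g : Matrix I I ℂ} (hg : ∀ i j, D.typ i ≠ D.typ j → g i j = 0) :
    g * Matrix.diagonal (eps D) = Matrix.diagonal (eps D) * g := by
  ext i j
  rw [Matrix.mul_diagonal, Matrix.diagonal_mul]
  by_cases h : D.typ i = D.typ j
  · rw [eps_typ D h, mul_comm]
  · rw [hg i j h, zero_mul, mul_zero]

theorem isG_adj {g : Matrix I I ℂ} (hg : IsG D g) : IsG D gᴴ := by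
  obtain ⟨h1, h2⟩ := hg
  have hb : ∀ i j, D.typ i ≠ D.typ j → gᴴ i j = 0 := by
    intro i j h
    rw [Matrix.conjTranspose_apply, h1 j i (fun e => h e.symm), star_zero]
  refine ⟨hb, ?_⟩
  have hPP := AL1B.psi_transpose_mul D
  have hPP' := AL1B.psi_mul_transpose D
  have h3 : ((Psi D)ᵀ * gᵀ * Psi D) * g = 1 := by
    rw [Matrix.mul_assoc, Matrix.mul_assoc, ← Matrix.mul_assoc gᵀ, h2, hPP]
  have h4 : g * ((Psi D)ᵀ * gᵀ * Psi D) = 1 := mul_eq_one_comm.mp h3
  have h5 : g * (Psi D)ᵀ * gᵀ = (Psi D)ᵀ := by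
    calc g * (Psi D)ᵀ * gᵀ = g * ((Psi D)ᵀ * gᵀ * Psi D) * (Psi D)ᵀ := by
          simp only [Matrix.mul_assoc, hPP', Matrix.mul_one]
      _ = (Psi D)ᵀ := by rw [h4, Matrix.one_mul]
  -- complex conjugation of the entries
  have h6 : g.map (starRingEnd ℂ) * (Psi D)ᵀ * gᴴ = (Psi D)ᵀ := by
    have h7 := congrArg (fun A : Matrix I I ℂ => A.map (starRingEnd ℂ)) h5
    simp only [Matrix.map_mul] at h7
    have h8 : ((Psi D)ᵀ).map (starRingEnd ℂ) = (Psi D)ᵀ := by
      ext i j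
      exact congrFun (congrFun (psi_real D) j) i
    have h9 : (gᵀ).map (starRingEnd ℂ) = gᴴ := rfl
    rw [h8, h9] at h7
    exact h7
  have h7 : (gᴴ)ᵀ = g.map (starRingEnd ℂ) := by
    ext i j
    rfl
  have h8 : ∀ i j, D.typ i ≠ D.typ j → (g.map (starRingEnd ℂ)) i j = 0 := by
    intro i j h
    rw [Matrix.map_apply, h1 i j h, map_zero]
  rw [h7]
  rw [psi_transpose] at h6
  have hE : Matrix.diagonal (eps D) * Matrix.diagonal (eps D) = 1 := by
    rw [Matrix.diagonal_mul_diagonal]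
    simp [eps_mul_self]
  have h9 : Matrix.diagonal (eps D) * (g.map (starRingEnd ℂ) * Psi D * gᴴ)
      = Matrix.diagonal (eps D) * Psi D := by
    rw [← h6]
    simp only [← Matrix.mul_assoc]
    rw [eps_comm D h8]
  have h10 := congrArg (fun A => Matrix.diagonal (eps D) * A) h9
  simp only [← Matrix.mul_assoc] at h10
  rw [hE] at h10
  simpa only [Matrix.one_mul] using h10

/-! ### The stabiliser -/

variable {κ : Type} {ln : κ → ℕ} (b : ∀ x, Ten I (ln x))

/-- the stabiliser of the family `b` -/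
def St (g : Matrix I I ℂ) : Prop := IsG D g ∧ ∀ x, gT g (b x) = b x

variable {D b}

theorem St.one : St D b 1 := ⟨alg1.G_one D, fun _ => alg1.gT_one _⟩

theorem St.mul {g h : Matrix I I ℂ} (hg : St D b g) (hh : St D b h) : St D b (g * h) :=
  ⟨alg1.G_mul D g h hg.1 hh.1, fun x => by rw [alg1.gT_mul, hh.2, hg.2]⟩

theorem St.inv {g : Matrix I I ℂ} (hg : St D b g) :
    St D b g⁻¹ ∧ g * g⁻¹ = 1 ∧ g⁻¹ * g = 1 := by
  obtain ⟨h1, h2, h3⟩ := alg1.G_inv D g hg.1
  refine ⟨⟨h1, fun x => ?_⟩, h2, h3⟩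
  have h4 := hg.2 x
  calc gT g⁻¹ (b x) = gT g⁻¹ (gT g (b x)) := by rw [h4]
    _ = b x := by rw [← alg1.gT_mul, h3, alg1.gT_one]

theorem St.adj (hb : ∀ x, jT D (b x) = b x) {g : Matrix I I ℂ} (hg : St D b g) :
    St D b gᴴ := by
  refine ⟨isG_adj D hg.1, fun x => eq_of_hT fun v => ?_⟩
  have h1 : hT (gT g v) (b x) = hT v (b x) := by
    rw [← hb x, ← alg1.psiT_jT D, ← alg1.psiT_jT D, hb, hb]
    calc psiT D (gT g v) (b x) = psiT D (gT g v) (gT g (b x)) := by rw [hg.2]
      _ = psiT D v (b x) := alg1.psiT_gT D g v (b x) hg.1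
  rw [alg1.hT_gT, Matrix.conjTranspose_conjTranspose, ← alg1.hT_conj (gT g v), h1,
    alg1.hT_conj]

/-! ### Positive roots -/

theorem sqrt_pos {Q : Matrix I I ℂ} (hQ : Q.PosDef) : (CFC.sqrt Q).PosDef := by
  have h1 : (CFC.sqrt Q).PosSemidef := (CFC.sqrt_nonneg Q).posSemidef
  rw [h1.posDef_iff_isUnit]
  have h2 : CFC.sqrt Q * CFC.sqrt Q = Q := CFC.sqrt_mul_sqrt_self Q hQ.posSemidef.nonneg
  have h3 : IsUnit Q := hQ.isUnit
  rw [← h2] at h3
  rw [Matrix.isUnit_iff_isUnit_det] at h3 ⊢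
  rw [Matrix.det_mul] at h3
  exact isUnit_of_mul_isUnit_left h3

theorem sqrt_mul {Q : Matrix I I ℂ} (hQ : Q.PosDef) : CFC.sqrt Q * CFC.sqrt Q = Q :=
  CFC.sqrt_mul_sqrt_self Q hQ.posSemidef.nonneg

theorem sqrt_herm {Q : Matrix I I ℂ} (hQ : Q.PosDef) : (CFC.sqrt Q)ᴴ = CFC.sqrt Q :=
  (sqrt_pos hQ).isHermitian

theorem pos_unique {X Y : Matrix I I ℂ} (hX : X.PosSemidef) (hY : Y.PosSemidef)
    (h : X * X = Y * Y) : X = Y :=
  (CFC.mul_self_eq_mul_self_iff X Y hX.nonneg hY.nonneg).mp h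

theorem block_sqrt {Q : Matrix I I ℂ} (hQ : Q.PosDef)
    (hb : ∀ i j, D.typ i ≠ D.typ j → Q i j = 0) :
    ∀ i j, D.typ i ≠ D.typ j → CFC.sqrt Q i j = 0 := by
  intro i j hij
  set R := CFC.sqrt Q with hR
  let d : I → ℂ := fun x => if D.typ x = D.typ i then -1 else 1
  let F : Matrix I I ℂ := Matrix.diagonal d
  have hd : ∀ x, d x * d x = 1 := by
    intro x
    by_cases e : D.typ x = D.typ i
    · simp [d, e]
    · simp [d, e]
  have hF : F * F = 1 := by
    simp only [F, Matrix.diagonal_mul_diagonal, hd]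
    exact Matrix.diagonal_one
  have hFH : Fᴴ = F := by
    simp only [F, Matrix.diagonal_conjTranspose]
    congr 1
    funext x
    by_cases e : D.typ x = D.typ i
    · simp [d, e]
    · simp [d, e]
  have h1 : F * Q * F = Q := by
    ext x y
    simp only [F, Matrix.mul_diagonal, Matrix.diagonal_mul]
    by_cases e : D.typ x = D.typ y
    · have : d x = d y := by simp only [d, e]
      rw [this]
      calc d y * Q x y * d y = (d y * d y) * Q x y := by ring
        _ = Q x y := by rw [hd, one_mul]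
    · rw [hb x y e, mul_zero, zero_mul]
  have h2 : (F * R * F).PosSemidef := by
    have := (sqrt_pos hQ).posSemidef.conjTranspose_mul_mul_same F
    rwa [hFH] at this
  have h3 : F * R * F = R := by
    refine pos_unique h2 (sqrt_pos hQ).posSemidef ?_
    rw [sqrt_mul hQ]
    calc F * R * F * (F * R * F) = F * R * (F * F) * R * F := by simp only [Matrix.mul_assoc]
      _ = F * (R * R) * F := by rw [hF, Matrix.mul_one]; simp only [Matrix.mul_assoc]
      _ = Q := by rw [hR, sqrt_mul hQ, h1]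
  have h4 := congrFun (congrFun h3 i) j
  simp only [F, Matrix.mul_diagonal, Matrix.diagonal_mul] at h4
  have h5 : d i = -1 := by simp [d]
  have h6 : d j = 1 := if_neg fun e => hij e.symm
  rw [h5, h6] at h4
  have h7 : -R i j = R i j := by simpa using h4
  have h8 : R i j + R i j = 0 := by
    nth_rewrite 1 [← h7]
    ring
  have h9 : (2 : ℂ) * R i j = 0 := by rw [two_mul]; exact h8
  simpa using h9

theorem psi_sqrt {Q : Matrix I I ℂ} (hQ : Q.PosDef) (h : Qᵀ * Psi D * Q = Psi D) :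
    (CFC.sqrt Q)ᵀ * Psi D * CFC.sqrt Q = Psi D := by
  set R := CFC.sqrt Q with hR
  have hPP := AL1B.psi_transpose_mul D
  have hPP' := AL1B.psi_mul_transpose D
  have hRR : R * R = Q := sqrt_mul hQ
  have hRp := sqrt_pos hQ
  have hRT : IsUnit (Rᵀ).det := by
    rw [Matrix.det_transpose, ← Matrix.isUnit_iff_isUnit_det]
    exact hRp.isUnit
  have hQT : IsUnit (Qᵀ).det := by
    rw [Matrix.det_transpose, ← Matrix.isUnit_iff_isUnit_det]
    exact hQ.isUnit
  have h1 : (Psi D * R * (Psi D)ᵀ).PosSemidef := by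
    have := hRp.posSemidef.mul_mul_conjTranspose_same (Psi D)
    rwa [psi_conjTranspose] at this
  have h2 : ((Rᵀ)⁻¹).PosSemidef := hRp.posSemidef.transpose.inv
  have h3 : Psi D * R * (Psi D)ᵀ = (Rᵀ)⁻¹ := by
    refine pos_unique h1 h2 ?_
    have h4 : Psi D * R * (Psi D)ᵀ * (Psi D * R * (Psi D)ᵀ) = Psi D * Q * (Psi D)ᵀ := by
      calc Psi D * R * (Psi D)ᵀ * (Psi D * R * (Psi D)ᵀ)
          = Psi D * R * ((Psi D)ᵀ * Psi D) * R * (Psi D)ᵀ := by simp only [Matrix.mul_assoc]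
        _ = Psi D * (R * R) * (Psi D)ᵀ := by
            rw [hPP, Matrix.mul_one]; simp only [Matrix.mul_assoc]
        _ = Psi D * Q * (Psi D)ᵀ := by rw [hRR]
    have h5 : (Rᵀ)⁻¹ * (Rᵀ)⁻¹ = (Qᵀ)⁻¹ := by
      rw [← Matrix.mul_inv_rev, ← Matrix.transpose_mul, hRR]
    rw [h4, h5]
    have h6 : Qᵀ * (Psi D * Q * (Psi D)ᵀ) = 1 := by
      calc Qᵀ * (Psi D * Q * (Psi D)ᵀ) = (Qᵀ * Psi D * Q) * (Psi D)ᵀ := by
            simp only [Matrix.mul_assoc]
        _ = 1 := by rw [h, hPP']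
    exact (Matrix.inv_eq_right_inv h6).symm
  have h7 : Rᵀ * (Psi D * R * (Psi D)ᵀ) = 1 := by
    rw [h3, Matrix.mul_nonsing_inv _ hRT]
  calc Rᵀ * Psi D * R = Rᵀ * (Psi D * R * (Psi D)ᵀ) * Psi D := by
        simp only [Matrix.mul_assoc, hPP, Matrix.mul_one]
    _ = Psi D := by rw [h7, Matrix.one_mul]

/-- the square root of a positive definite element of the stabiliser -/
theorem St.sqrt {Q : Matrix I I ℂ} (hQ : Q.PosDef) (h : St D b Q) : St D b (CFC.sqrt Q) := by
  refine ⟨⟨block_sqrt hQ h.1.1, psi_sqrt hQ h.1.2⟩, fun x => ?_⟩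
  set R := CFC.sqrt Q with hR
  set v : Ten I (ln x) := gT R (b x) - b x with hv
  have h1 : gT R v = -v := by
    rw [hv, gT_sub, ← alg1.gT_mul, hR, sqrt_mul hQ, h.2]
    abel
  have h2 : hT (gT R v) v = hT (gT (CFC.sqrt R) v) (gT (CFC.sqrt R) v) := by
    have h3 : gT R v = gT (CFC.sqrt R) (gT (CFC.sqrt R) v) := by
      rw [← alg1.gT_mul, sqrt_mul (sqrt_pos hQ)]
    rw [h3, alg1.hT_gT, sqrt_herm (sqrt_pos hQ)]
  have h4 : v = 0 := by
    apply hT_self_re_eq_zero
    have h5 : hT (gT R v) v = -hT v v := by rw [h1, hT_neg_left]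
    rw [h2] at h5
    have h6 := congrArg Complex.re h5
    rw [alg1.hT_self (gT (CFC.sqrt R) v), Complex.ofReal_re, Complex.neg_re] at h6
    have h7 : (0 : ℝ) ≤ ∑ w, ‖gT (CFC.sqrt R) v w‖ ^ 2 :=
      Finset.sum_nonneg fun w _ => by positivity
    linarith
  have h8 : gT R (b x) - b x = 0 := h4
  exact sub_eq_zero.mp h8

/-! ### The minimum -/

omit [DecidableEq I] in
theorem trace_re (X : Matrix I I ℂ) :
    (Matrix.trace (Xᴴ * X)).re = ∑ i, ∑ j, ‖X j i‖ ^ 2 := by
  rw [Matrix.trace, Complex.re_sum]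
  refine Finset.sum_congr rfl fun i _ => ?_
  rw [Matrix.diag_apply, Matrix.mul_apply, Complex.re_sum]
  refine Finset.sum_congr rfl fun j _ => ?_
  rw [Matrix.conjTranspose_apply, Complex.star_def, mul_comm, Complex.mul_conj,
    Complex.ofReal_re, Complex.normSq_eq_norm_sq]

/-- the function to be minimised -/
def phi (M g : Matrix I I ℂ) : ℝ := (Matrix.trace (gᴴ * M * g)).re

theorem phi_eq {M : Matrix I I ℂ} (hM : M.PosDef) (g : Matrix I I ℂ) :
    phi M g = ∑ i, ∑ j, ‖(CFC.sqrt M * g) j i‖ ^ 2 := by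
  rw [← trace_re]
  unfold phi
  congr 2
  rw [Matrix.conjTranspose_mul, sqrt_herm hM]
  calc gᴴ * M * g = gᴴ * (CFC.sqrt M * CFC.sqrt M) * g := by rw [sqrt_mul hM]
    _ = gᴴ * CFC.sqrt M * (CFC.sqrt M * g) := by simp only [Matrix.mul_assoc]

omit [DecidableEq I] in
theorem continuous_phi (M : Matrix I I ℂ) : Continuous fun g : Matrix I I ℂ => phi M g := by
  unfold phi
  exact Complex.continuous_re.comp (by fun_prop)

theorem entry_le {M : Matrix I I ℂ} (hM : M.PosDef) (g : Matrix I I ℂ) (i j : I) :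
    ‖g i j‖ ≤ (∑ x, ∑ k, ‖(CFC.sqrt M)⁻¹ x k‖) * Real.sqrt (phi M g) := by
  set R := CFC.sqrt M with hR
  have hu : IsUnit R.det := by
    rw [← Matrix.isUnit_iff_isUnit_det]
    exact (sqrt_pos hM).isUnit
  have h1 : g = R⁻¹ * (R * g) := by
    rw [← Matrix.mul_assoc, Matrix.nonsing_inv_mul _ hu, Matrix.one_mul]
  have h2 : ∀ k, ‖(R * g) k j‖ ≤ Real.sqrt (phi M g) := by
    intro k
    rw [phi_eq hM]
    refine Real.le_sqrt_of_sq_le ?_
    refine le_trans ?_ (Finset.single_le_sum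
      (f := fun i => ∑ j, ‖(CFC.sqrt M * g) j i‖ ^ 2)
      (fun i _ => Finset.sum_nonneg fun j _ => by positivity) (Finset.mem_univ j))
    exact Finset.single_le_sum (f := fun k => ‖(CFC.sqrt M * g) k j‖ ^ 2)
      (fun k _ => by positivity) (Finset.mem_univ k)
  have h3 : g i j = ∑ k, R⁻¹ i k * (R * g) k j := by
    conv_lhs => rw [h1]
    rw [Matrix.mul_apply]
  rw [h3]
  calc ‖∑ k, R⁻¹ i k * (R * g) k j‖ ≤ ∑ k, ‖R⁻¹ i k * (R * g) k j‖ := norm_sum_le _ _
    _ ≤ ∑ k, ‖R⁻¹ i k‖ * Real.sqrt (phi M g) := by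
        refine Finset.sum_le_sum fun k _ => ?_
        rw [norm_mul]
        exact mul_le_mul_of_nonneg_left (h2 k) (norm_nonneg _)
    _ = (∑ k, ‖R⁻¹ i k‖) * Real.sqrt (phi M g) := by rw [Finset.sum_mul]
    _ ≤ (∑ x, ∑ k, ‖R⁻¹ x k‖) * Real.sqrt (phi M g) := by
        refine mul_le_mul_of_nonneg_right ?_ (Real.sqrt_nonneg _)
        exact Finset.single_le_sum (f := fun x => ∑ k, ‖R⁻¹ x k‖)
          (fun x _ => Finset.sum_nonneg fun k _ => norm_nonneg _) (Finset.mem_univ i)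

theorem isClosed_St : IsClosed {g : Matrix I I ℂ | St D b g} := by
  have h1 : IsClosed {g : Matrix I I ℂ | ∀ i j, D.typ i ≠ D.typ j → g i j = 0} := by
    have : {g : Matrix I I ℂ | ∀ i j, D.typ i ≠ D.typ j → g i j = 0} =
        ⋂ i, ⋂ j, {g : Matrix I I ℂ | D.typ i ≠ D.typ j → g i j = 0} := by
      ext g; simp
    rw [this]
    refine isClosed_iInter fun i => isClosed_iInter fun j => ?_
    by_cases e : D.typ i = D.typ j
    · simp [e]
    · simp only [ne_eq, e, not_false_eq_true, forall_const]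
      exact isClosed_eq (by fun_prop) continuous_const
  have h2 : IsClosed {g : Matrix I I ℂ | g.transpose * Psi D * g = Psi D} :=
    isClosed_eq (by fun_prop) continuous_const
  have h3 : IsClosed {g : Matrix I I ℂ | ∀ x, gT g (b x) = b x} := by
    have : {g : Matrix I I ℂ | ∀ x, gT g (b x) = b x} = ⋂ x, {g | gT g (b x) = b x} := by
      ext g; simp
    rw [this]
    refine isClosed_iInter fun x => isClosed_eq ?_ continuous_const
    exact alg1.gT_cont.comp (continuous_id.prodMk continuous_const)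
  have : {g : Matrix I I ℂ | St D b g} =
      ({g : Matrix I I ℂ | ∀ i j, D.typ i ≠ D.typ j → g i j = 0} ∩
        {g : Matrix I I ℂ | g.transpose * Psi D * g = Psi D}) ∩
        {g : Matrix I I ℂ | ∀ x, gT g (b x) = b x} := by
    ext g; rfl
  rw [this]
  exact (h1.inter h2).inter h3

theorem exists_min {M : Matrix I I ℂ} (hM : M.PosDef) :
    ∃ g, St D b g ∧ ∀ h, St D b h → phi M g ≤ phi M h := by
  set A : Set (Matrix I I ℂ) := {g | St D b g} ∩ {g | phi M g ≤ phi M 1} with hA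
  set C : ℝ := (∑ x, ∑ k, ‖(CFC.sqrt M)⁻¹ x k‖) * Real.sqrt (phi M 1) with hC
  have hclosed : IsClosed A :=
    isClosed_St.inter (isClosed_le (continuous_phi M) continuous_const)
  have hcpt : IsCompact (Set.pi Set.univ fun _ : I => Set.pi Set.univ fun _ : I =>
      Metric.closedBall (0 : ℂ) C) :=
    isCompact_univ_pi fun _ => isCompact_univ_pi fun _ => isCompact_closedBall 0 C
  have hAc : IsCompact A := by
    refine IsCompact.of_isClosed_subset (X := Matrix I I ℂ) hcpt hclosed ?_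
    intro g hg i _ j _
    rw [mem_closedBall_zero_iff]
    refine (entry_le hM g i j).trans ?_
    refine mul_le_mul_of_nonneg_left (Real.sqrt_le_sqrt hg.2) ?_
    exact Finset.sum_nonneg fun _ _ => Finset.sum_nonneg fun _ _ => norm_nonneg _
  have hne : A.Nonempty := ⟨1, St.one, le_refl (phi M 1)⟩
  obtain ⟨g, hgA, hg⟩ := hAc.exists_isMinOn hne (continuous_phi M).continuousOn
  refine ⟨g, hgA.1, fun h hh => ?_⟩
  by_cases hle : phi M h ≤ phi M 1
  · exact hg (a := h) ⟨hh, hle⟩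
  · exact hgA.2.trans (le_of_lt (not_le.mp hle))

theorem posDef_conj {M g : Matrix I I ℂ} (hM : M.PosDef) (hg : IsUnit g.det) :
    (gᴴ * M * g).PosDef := by
  have h1 : (gᴴ * M * g).PosSemidef := hM.posSemidef.conjTranspose_mul_mul_same g
  rw [h1.posDef_iff_isUnit, Matrix.isUnit_iff_isUnit_det, Matrix.det_mul, Matrix.det_mul,
    Matrix.det_conjTranspose]
  have h2 : IsUnit M.det := by
    rw [← Matrix.isUnit_iff_isUnit_det]; exact hM.isUnit
  exact (hg.star.mul h2).mul hg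

theorem posDef_mul_adj {g : Matrix I I ℂ} (hg : IsUnit g.det) : (g * gᴴ).PosDef := by
  have h1 : (g * gᴴ).PosSemidef := Matrix.posSemidef_self_mul_conjTranspose g
  rw [h1.posDef_iff_isUnit, Matrix.isUnit_iff_isUnit_det, Matrix.det_mul,
    Matrix.det_conjTranspose]
  exact hg.mul hg.star

/-- the key step -/
theorem key {M g : Matrix I I ℂ} (hM : M.PosDef) (hb : ∀ x, jT D (b x) = b x)
    (hg : St D b g) (hmin : ∀ h, St D b h → phi M g ≤ phi M h) {f : Matrix I I ℂ}
    (hf : St D b f) (hfM : fᴴ * M * f = M) : (g⁻¹ * f * g)ᴴ * (g⁻¹ * f * g) = 1 := by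
  obtain ⟨hgi, hg1, hg2⟩ := hg.inv
  obtain ⟨-, hf1, -⟩ := hf.inv
  set f0 := g⁻¹ * f * g with hf0
  have hf0S : St D b f0 := (hgi.mul hf).mul hg
  have hf0u : IsUnit f0.det := by
    obtain ⟨-, h1, -⟩ := hf0S.inv
    have h2 := congrArg Matrix.det h1
    rw [Matrix.det_mul, Matrix.det_one] at h2
    exact IsUnit.of_mul_eq_one _ h2
  have hgu : IsUnit g.det := by
    have h2 := congrArg Matrix.det hg1
    rw [Matrix.det_mul, Matrix.det_one] at h2
    exact IsUnit.of_mul_eq_one _ h2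
  set Q := f0 * f0ᴴ with hQ
  have hQp : Q.PosDef := posDef_mul_adj hf0u
  have hQS : St D b Q := hf0S.mul (hf0S.adj hb)
  set S1 := CFC.sqrt Q with hS1
  have hS1p : S1.PosDef := sqrt_pos hQp
  have hS1S : St D b S1 := hQS.sqrt hQp
  set S2 := CFC.sqrt S1 with hS2
  have hS2S : St D b S2 := hS1S.sqrt hS1p
  set N := gᴴ * M * g with hN
  have hNp : N.PosDef := posDef_conj hM hgu
  -- minimality
  have h1 : (Matrix.trace N).re ≤ (Matrix.trace (N * S1)).re := by
    have h2 := hmin (g * S2) (hg.mul hS2S)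
    unfold phi at h2
    have h3 : (g * S2)ᴴ * M * (g * S2) = S2 * N * S2 := by
      rw [Matrix.conjTranspose_mul g S2, hS2, sqrt_herm hS1p, hN]
      simp only [Matrix.mul_assoc]
    have h3' : Matrix.trace (S2 * N * S2) = Matrix.trace (N * S1) := by
      rw [Matrix.trace_mul_comm, ← Matrix.mul_assoc, hS2, sqrt_mul hS1p, Matrix.trace_mul_comm]
    rw [h3, h3'] at h2
    exact h2
  have h4 : (Matrix.trace (N * (S1 * S1))).re = (Matrix.trace N).re := by
    have h5 : f * g = g * f0 := by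
      rw [hf0, ← Matrix.mul_assoc, ← Matrix.mul_assoc, hg1, Matrix.one_mul]
    have h6 : f0ᴴ * N * f0 = N := by
      calc f0ᴴ * N * f0 = (g * f0)ᴴ * M * (g * f0) := by
            rw [Matrix.conjTranspose_mul g f0, hN]; simp only [Matrix.mul_assoc]
        _ = (f * g)ᴴ * M * (f * g) := by rw [h5]
        _ = gᴴ * (fᴴ * M * f) * g := by
            rw [Matrix.conjTranspose_mul f g]; simp only [Matrix.mul_assoc]
        _ = N := by rw [hfM]
    rw [hS1, sqrt_mul hQp, hQ, ← Matrix.mul_assoc, Matrix.trace_mul_comm, ← Matrix.mul_assoc, h6]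
  -- the square
  have h5 : (S1 - 1)ᴴ = S1 - 1 := by
    rw [Matrix.conjTranspose_sub, Matrix.conjTranspose_one, hS1, sqrt_herm hQp]
  have h6 : (Matrix.trace ((S1 - 1)ᴴ * N * (S1 - 1))).re ≤ 0 := by
    have h7 : Matrix.trace ((S1 - 1)ᴴ * N * (S1 - 1))
        = Matrix.trace (N * (S1 * S1)) - 2 * Matrix.trace (N * S1) + Matrix.trace N := by
      rw [h5, Matrix.mul_assoc, Matrix.trace_mul_comm, Matrix.mul_assoc]
      have h8 : N * ((S1 - 1) * (S1 - 1)) = N * (S1 * S1) - N * S1 - N * S1 + N := by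
        noncomm_ring
      rw [h8, Matrix.trace_add, Matrix.trace_sub, Matrix.trace_sub]
      ring
    rw [h7, Complex.add_re, Complex.sub_re, h4]
    have h9 : (2 * Matrix.trace (N * S1)).re = 2 * (Matrix.trace (N * S1)).re := by
      simp
    rw [h9]
    linarith
  have h7 : CFC.sqrt N * (S1 - 1) = 0 := by
    have h8 := phi_eq hNp (S1 - 1)
    unfold phi at h8
    rw [h8] at h6
    have h9 : ∑ i, ∑ j, ‖(CFC.sqrt N * (S1 - 1)) j i‖ ^ 2 = 0 :=
      le_antisymm h6 (Finset.sum_nonneg fun i _ => Finset.sum_nonneg fun j _ => by positivity)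
    rw [Finset.sum_eq_zero_iff_of_nonneg
      (fun i _ => Finset.sum_nonneg fun j _ => by positivity)] at h9
    ext j i
    have h10 := h9 i (Finset.mem_univ i)
    rw [Finset.sum_eq_zero_iff_of_nonneg (fun j _ => by positivity)] at h10
    have h11 := h10 j (Finset.mem_univ j)
    simpa using h11
  have h8 : S1 - 1 = 0 := by
    have hu : IsUnit (CFC.sqrt N).det := by
      rw [← Matrix.isUnit_iff_isUnit_det]
      exact (sqrt_pos hNp).isUnit
    calc S1 - 1 = (CFC.sqrt N)⁻¹ * (CFC.sqrt N * (S1 - 1)) := by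
          rw [← Matrix.mul_assoc, Matrix.nonsing_inv_mul _ hu, Matrix.one_mul]
      _ = 0 := by rw [h7, Matrix.mul_zero]
  have h9 : S1 = 1 := sub_eq_zero.mp h8
  have h10 : f0 * f0ᴴ = 1 := by
    have := sqrt_mul hQp
    rw [← hS1, h9, Matrix.one_mul] at this
    rw [← hQ, ← this]
  exact mul_eq_one_comm.mp h10

end Car

/-- Row CAR: Cartan's fixed point theorem for the stabiliser of a set of tensors fixed by `J₀`. -/
theorem car : CarStatement := by
  intro I Λ _ _ _ D S hS N hN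
  let b : ∀ x : (Σ L, {u : Ten I L // S L u}), Ten I x.1 := fun x => x.2.1
  have hb : ∀ x, jT D (b x) = b x := fun x => hS x.1 x.2.1 x.2.2
  obtain ⟨g, hg, hmin⟩ := Car.exists_min (D := D) (b := b) hN
  refine ⟨g, hg.1, fun L u hu => hg.2 ⟨L, u, hu⟩, fun f hf hfb hfN => ?_⟩
  exact Car.key hN hb hg hmin ⟨hf, fun x => hfb x.1 x.2.1 x.2.2⟩ hfN

end Pool.Agent.Lib.MP_361a6f_ag.FL
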