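import Pool.Agent.Lib.MP_361a6f_ag.FL.B.Conj

/-!
# Conjugates of a Hodge-Riemann structure, relative to a set of symmetries

`J` is a system of Hodge-Riemann structures on the factors of a host and their products, `K x` are
antilinear ring endomorphisms with the matrices `γ x`, and `g` is an element of the group that fixes
all algebraic classes fixed by `J` and by all `K x`. Then the conjugate of `J` by `g` is again such
a system.
-/

open CategoryTheory AlgebraicGeometry MonoidalCategory CartesianMonoidalCategory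

universe u v w

set_option autoImplicit false
set_option linter.unusedSectionVars false

namespace Pool.Agent.Lib.MP_361a6f_ag.FL

open Pool.Agent.Lib.MP_361a6f_ag.H3 Pool.Agent.Lib.MP_361a6f_ag.SQ
  Pool.Agent.Lib.MP_361a6f_ag.IP2 Pool.Agent.Lib.MP_361a6f_ag.PP

namespace ConjF

open Jl85 (comm1 isRS' pol_fixed surj_of_rs ker_fixed)

variable {k : Type u} [Field k] {W : CohomologyData.{u, 0, w} k ℂ} {𝒱 : VarietyClass k} {m : ℕ}
  (H : Host W 𝒱 m)

/-- antilinear ring endomorphisms on all products, with the matrix `γ` -/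
structure KFacts (γ : Matrix H.I H.I ℂ)
    (K : ∀ P : Prd m, W.coh (P.obj H.X) →ₛₗ[starRingEnd ℂ] W.coh (P.obj H.X)) : Prop where
  tc : ∀ P z, H.tc P (K P z) = gT γ (jT H.D (H.tc P z))
  surj : ∀ P, Function.Surjective (K P)
  gr : ∀ (P : Prd m) (i : ℕ) (x : W.coh (P.obj H.X)), x ∈ W.gr (P.obj H.X) i →
    K P x ∈ W.gr (P.obj H.X) i
  one : ∀ P, K P 1 = 1
  mul : ∀ (P : Prd m) (x y : W.coh (P.obj H.X)), K P (x * y) = K P x * K P y
  pol : ∀ a, K (.leaf a) (H.ξ a) = H.ξ a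
  pull : ∀ (P Q : Prd m) (f : Sch.Mor (P.obj H.X) (Q.obj H.X)), CoordMor H.X 3 P Q f →
    ∀ z, K P (W.pb f z) = W.pb f (K Q z)
  push : ∀ (P Q : Prd m) (f : Sch.Mor (P.obj H.X) (Q.obj H.X)), CoordMor H.X 3 P Q f →
    ∀ z, K Q (W.pf f z) = W.pf f (K P z)

/-- the kernel of an operator that commutes with `j` is fixed by `J` -/
theorem ker_fix (hW : IsWeilCohomology W 𝒱) {X : Sch k} {n : ℕ} (hX : 𝒱.mem X n)
    (j : W.coh X →ₛₗ[starRingEnd ℂ] W.coh X)
    (J : W.coh (X ⊗ X) →ₛₗ[starRingEnd ℂ] W.coh (X ⊗ X)) (hs : Function.Surjective j)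
    (hm : ∀ x y, J (x * y) = J x * J y)
    (hpull : ∀ s, J (W.pull (fst X X) s) = W.pull (fst X X) (j s))
    (hpush : ∀ z, j (W.push (snd X X) z) = W.push (snd X X) (J z))
    (γ : W.coh (X ⊗ X)) (hc : ∀ s, j (cor W γ s) = cor W γ (j s)) : J γ = γ := by
  refine cor_injective hW hX hX (LinearMap.ext fun s => ?_)
  obtain ⟨s, rfl⟩ := hs s
  rw [← hc, cor_apply, cor_apply, hpush, hm, hpull]

variable {H}

theorem KFacts.ker {γ : Matrix H.I H.I ℂ}
    {K : ∀ P : Prd m, W.coh (P.obj H.X) →ₛₗ[starRingEnd ℂ] W.coh (P.obj H.X)}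
    (hK : KFacts H γ K) (P : Prd m) (δ : W.coh (P.obj H.X ⊗ P.obj H.X))
    (hc : ∀ s, K P (cor W δ s) = cor W δ (K P s)) : K (.prod P P) δ = δ :=
  ker_fix H.hW (H.memP P) (K P) (K (.prod P P)) (hK.surj P) (hK.mul (.prod P P))
    (hK.pull (.prod P P) P _ (CoordMor.pr₁ P P)) (hK.push (.prod P P) P _ (CoordMor.pr₂ P P)) δ hc

variable (H)

variable (a1 : Alg1) (a2 : Alg2) {g : Matrix H.I H.I ℂ} (ge : H.GeFacts)
  {ι : Type} {γ : ι → Matrix H.I H.I ℂ}
  (hG : IsG H.D g) (hB : ∀ (L : ℕ) (u : Ten H.I L), u ∈ H.At L → jT H.D u = u →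
    (∀ x, gT (γ x) u = u) → gT g u = u)
  {J : ∀ P : Prd m, W.coh (P.obj H.X) →ₛₗ[starRingEnd ℂ] W.coh (P.obj H.X)}
  (hJ : H.J0Facts J)
  {K : ι → ∀ P : Prd m, W.coh (P.obj H.X) →ₛₗ[starRingEnd ℂ] W.coh (P.obj H.X)}
  (hK : ∀ x, KFacts H (γ x) (K x))

include ge hG hB hJ hK in
/-- the algebraic classes fixed by `J` and the `K x` are fixed -/
theorem fix0 (P : Prd m) (z : W.coh (P.obj H.X)) (hz : z ∈ tot W (P.obj H.X))
    (hjz : J P z = z) (hkz : ∀ x, K x P z = z) : GJ.J H a1 g P z = z := by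
  refine ge.inj P ?_
  rw [GJ.tc_J H a1 hG ge]
  have hAt : H.tc P z ∈ H.At P.size :=
    AddSubgroup.subset_closure (Or.inr ⟨P, rfl, z, hz, rfl⟩)
  have h1 : jT H.D (H.tc P z) = H.tc P z := by rw [← hJ.tc, hjz]
  have h0 : ∀ x, gT (γ x) (H.tc P z) = H.tc P z := fun x => by
    conv_lhs => rw [← h1, ← (hK x).tc, hkz]
  have h2 : gT g (H.tc P z) = H.tc P z := hB _ _ hAt h1 h0
  have h3 : gT g⁻¹ (H.tc P z) = H.tc P z := by
    conv_lhs => rw [← h2]
    rw [← a1.gT_mul, (a1.G_inv H.D g hG).2.2, a1.gT_one]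
  rw [GJ.JT, h3, h1, h2]

include ge hG a2 in
theorem fixed2 (P : Prd m) (δ : W.coh (P.obj H.X ⊗ P.obj H.X))
    (h : GJ.J H a1 g (.prod P P) δ = δ) :
    GeoJ.Fixed W (GJ.J H a1 g P) (GJ.J H a1 g P) δ := by
  obtain ⟨M, a, b, hab⟩ := TRC.exists_sum H.hW (H.memP P) (H.memP P) δ
  refine ⟨M, a, b, hab, ?_⟩
  have h2 : GJ.J H a1 g (.prod P P) δ
      = ∑ ν, GJ.J H a1 g (.prod P P) (W.pull (fst (P.obj H.X) (P.obj H.X)) (a ν)
        * W.pull (snd (P.obj H.X) (P.obj H.X)) (b ν)) := by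
    conv_lhs => rw [hab]
    exact map_sum _ _ _
  rw [← h, h2]
  exact Finset.sum_congr rfl fun ν _ => GJ.J_prod H a1 a2 hG ge P P _ _

include ge hG hB hJ hK a2 in
/-- commutation with the algebraic operators that commute with `J` and the `K x` -/
theorem comm (hsta : StaStatement.{w}) (P : Prd m) {u : Module.End ℂ (W.coh (P.obj H.X))}
    (hu : AlgOp W (P.obj H.X) u) (hc : ∀ s, J P (u s) = u (J P s))
    (hs : ∀ s, J P (star (H.lamP P).1.slm.internal (Lop W (P.obj H.X) (P.pol W H.ξ))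
        (H.LamP P) s)
      = star (H.lamP P).1.slm.internal (Lop W (P.obj H.X) (P.pol W H.ξ)) (H.LamP P) (J P s))
    (hcK : ∀ x s, K x P (u s) = u (K x P s))
    (hsK : ∀ x s, K x P (star (H.lamP P).1.slm.internal (Lop W (P.obj H.X) (P.pol W H.ξ))
        (H.LamP P) s)
      = star (H.lamP P).1.slm.internal (Lop W (P.obj H.X) (P.pol W H.ξ)) (H.LamP P) (K x P s))
    (s : W.coh (P.obj H.X)) : GJ.J H a1 g P (u s) = u (GJ.J H a1 g P s) := by
  obtain ⟨δ, hδ, h⟩ := AlgOp.comp H.hW (H.memP P) hu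
    (algOp_star H.hW (H.memP P) (H.lamP P).2 (H.lamP P).1)
  have h1 : ∀ x, u (star (H.lamP P).1.slm.internal (Lop W (P.obj H.X) (P.pol W H.ξ))
      (H.LamP P) x) = cor W δ x := fun x => h x
  refine comm1 hsta H.hW (H.memP P) (H.lamP P).2 (H.lamP P).1 (GJ.J_conj H a1 hG ge P) h1
    (fixed2 H a1 a2 ge hG P δ (fix0 H a1 ge hG hB hJ hK (.prod P P) δ hδ
      (ker_fixed H hJ P δ fun s => ?_) fun x => (hK x).ker P δ fun s => ?_)) s
  · rw [← h1, ← h1, hc, hs]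
  · rw [← h1, ← h1, hcK, hsK]

include ge hG hB hJ hK a2 in
theorem rs (hsta : StaStatement.{w}) (hRsp : RspStatement.{u, w}) :
    ∀ P : Prd m, IsRS W (P.obj H.X) (P.dim H.n) (P.pol W H.ξ) (H.LamP P) (GJ.J H a1 g P)
  | .leaf a => by
    have hξ : J (.leaf a) (H.ξ a) = H.ξ a := pol_fixed (hJ.rs (.leaf a))
    have hL : ∀ s, J (.leaf a) (Lop W (H.X a) (H.ξ a) s) = Lop W (H.X a) (H.ξ a) (J (.leaf a) s) :=
      (hJ.rs (.leaf a)).map_L
    have hst := HrPsi.j_star H.hW (H.mem a) (H.ξ_alg a) (H.lam a) (J (.leaf a))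
      (hJ.mul (.leaf a)) (hJ.rs (.leaf a)).gr hξ
    have hKL : ∀ x s, K x (.leaf a) (Lop W (H.X a) (H.ξ a) s)
        = Lop W (H.X a) (H.ξ a) (K x (.leaf a) s) := fun x s => by
      have h1 := (hK x).mul (.leaf a) (H.ξ a) s
      rw [(hK x).pol a] at h1
      exact h1
    have hKst := fun x => HrPsi.j_star H.hW (H.mem a) (H.ξ_alg a) (H.lam a) (K x (.leaf a))
      ((hK x).mul (.leaf a)) ((hK x).gr (.leaf a)) ((hK x).pol a)
    have hKLam := fun x => HrPsi.j_Lam H.hW (H.mem a) (H.ξ_alg a) (H.lam a) (K x (.leaf a))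
      ((hK x).mul (.leaf a)) ((hK x).gr (.leaf a)) ((hK x).pol a)
    refine isRS' hsta H.hW (H.memP (.leaf a)) (H.lamP (.leaf a)).2 (H.lamP (.leaf a)).1
      (GJ.J_gr H a1 hG ge hsta (.leaf a)) ?_
      (GJ.J_conj H a1 hG ge (.leaf a)) (GJ.J_pos H a1 hG ge (.leaf a)) ?_ ?_ ?_
    · exact fix0 H a1 ge hG hB hJ hK (.leaf a) 1 (one_tot H.hW (H.mem a))
        (hJ.rs (.leaf a)).one fun x => (hK x).one (.leaf a)
    · exact comm H a1 a2 ge hG hB hJ hK hsta (.leaf a)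
        (algOp_Lop H.hW (H.mem a) (H.ξ_alg a) (H.lam a)) hL hst hKL hKst
    · exact comm H a1 a2 ge hG hB hJ hK hsta (.leaf a) (H.lam a).alg (hJ.rs (.leaf a)).map_Lam hst
        hKLam hKst
    · exact comm H a1 a2 ge hG hB hJ hK hsta (.leaf a)
        (algOp_star H.hW (H.mem a) (H.ξ_alg a) (H.lam a)) hst hst hKst hKst
  | .prod P Q => by
    obtain ⟨j, hj, hjp⟩ := hRsp H.hW (H.memP P) (H.memP Q)
      (H.hW.alg_gr (H.memP P) (j := 1) (H.lamP P).2)
      (H.hW.alg_gr (H.memP Q) (j := 1) (H.lamP Q).2) (rs hsta hRsp P) (rs hsta hRsp Q)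
    have e : j = GJ.J H a1 g (.prod P Q) := by
      refine LinearMap.ext fun z => ?_
      have hz : z ∈ Submodule.span ℂ {z | ∃ (y : W.coh (P.obj H.X)) (x : W.coh (Q.obj H.X)),
          z = W.ext y x} := by
        rw [H.hW.kunneth.span (H.memP P) (H.memP Q)]
        exact Submodule.mem_top
      induction hz using Submodule.span_induction with
      | mem z hz =>
        obtain ⟨y, x, rfl⟩ := hz
        exact (hjp y x).trans (GJ.J_prod H a1 a2 hG ge P Q y x).symm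
      | zero => exact (map_zero j).trans (map_zero (GJ.J H a1 g (.prod P Q))).symm
      | add a b _ _ ha hb =>
        exact (map_add j a b).trans ((congrArg₂ (· + ·) ha hb).trans
          (map_add (GJ.J H a1 g (.prod P Q)) a b).symm)
      | smul c a _ ha =>
        exact (LinearMap.map_smulₛₗ j c a).trans ((congrArg (fun t => (starRingEnd ℂ c) • t)
          ha).trans (LinearMap.map_smulₛₗ (GJ.J H a1 g (.prod P Q)) c a).symm)
    subst e
    exact hj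

/-! ### Multiplicativity -/

include ge hG hB hJ hK a2 in
theorem mul_leaf (hsta : StaStatement.{w}) (hRsp : RspStatement.{u, w}) (a : Fin m)
    (x y : W.coh (H.X a)) : GJ.J H a1 g (.leaf a) (x * y)
      = GJ.J H a1 g (.leaf a) x * GJ.J H a1 g (.leaf a) y := by
  have h1 := H.mem a
  have h3 : 𝒱.mem ((H.X a ⊗ H.X a) ⊗ H.X a) (H.n a + H.n a + H.n a) :=
    𝒱.prod (𝒱.prod h1 h1) h1
  have R1 := rs H a1 a2 ge hG hB hJ hK hsta hRsp (.leaf a)
  have R3 := rs H a1 a2 ge hG hB hJ hK hsta hRsp (GM.cube a)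
  have e0 : (lift (lift (𝟙 (H.X a)) (𝟙 (H.X a))) (𝟙 (H.X a)) :
      H.X a ⟶ (H.X a ⊗ H.X a) ⊗ H.X a) = lift (𝟙 (H.X a)) (𝟙 (H.X a))
        ≫ lift (fst (H.X a) (H.X a) ≫ lift (𝟙 (H.X a)) (𝟙 (H.X a)))
          (snd (H.X a) (H.X a) ≫ 𝟙 (H.X a)) := by
    rw [comp_lift, ← Category.assoc, ← Category.assoc, lift_fst, lift_snd, Category.id_comp,
      Category.id_comp]
  have hc : CoordMor H.X 3 (.leaf a) (GM.cube a)
      (lift (lift (𝟙 (H.X a)) (𝟙 (H.X a))) (𝟙 (H.X a)) :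
        H.X a ⟶ (H.X a ⊗ H.X a) ⊗ H.X a) := by
    have h := CoordMor.comp (X := H.X) (N := 3) (.leaf a) (.prod (.leaf a) (.leaf a)) (GM.cube a)
      _ _ (CoordMor.diag (.leaf a) le_rfl) (CoordMor.prod (.leaf a) (.prod (.leaf a) (.leaf a))
        (.leaf a) (.leaf a) _ _ (CoordMor.diag (.leaf a) le_rfl) (CoordMor.id (.leaf a)))
    rw [e0]
    exact h
  have hδ : GJ.J H a1 g (GM.cube a) (W.push (lift (lift (𝟙 (H.X a)) (𝟙 (H.X a)))
      (𝟙 (H.X a))) (1 : W.coh (H.X a)))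
      = W.push (lift (lift (𝟙 (H.X a)) (𝟙 (H.X a))) (𝟙 (H.X a))) (1 : W.coh (H.X a)) := by
    refine fix0 H a1 ge hG hB hJ hK (GM.cube a) _ ?_ ?_ ?_
    · refine alg_le_tot H.hW _ (2 * H.n a) ?_
      refine H.hW.push_alg h1 h3 _ (H.hW.one_alg h1) ?_
      omega
    · have h4 := hJ.push (.leaf a) (GM.cube a) _ hc (1 : W.coh (H.X a))
      have h5 : J (.leaf a) (1 : W.coh (H.X a)) = 1 := (hJ.rs (.leaf a)).one
      rw [h5] at h4
      exact h4
    · intro x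
      have h4 := (hK x).push (.leaf a) (GM.cube a) _ hc (1 : W.coh (H.X a))
      have h5 : K x (.leaf a) (1 : W.coh (H.X a)) = 1 := (hK x).one (.leaf a)
      rw [h5] at h4
      exact h4
  refine GMpre.mul_of_diag H.hW h1 h3 (lift (lift (𝟙 (H.X a)) (𝟙 (H.X a))) (𝟙 (H.X a)))
    (fst (H.X a ⊗ H.X a) (H.X a) ≫ fst (H.X a) (H.X a))
    (fst (H.X a ⊗ H.X a) (H.X a) ≫ snd (H.X a) (H.X a))
    (snd (H.X a ⊗ H.X a) (H.X a)) ?_ ?_ ?_ (GJ.J H a1 g (.leaf a)) (GJ.J H a1 g (GM.cube a))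
    R1.tr (surj_of_rs H R1) R3.tr ?_ hδ x y
  · rw [← Category.assoc, lift_fst, lift_fst]
  · rw [← Category.assoc, lift_fst, lift_snd]
  · rw [lift_snd]
  · intro x y z
    have e : ∀ x y z : W.coh (H.X a), W.pull (fst (H.X a ⊗ H.X a) (H.X a) ≫ fst (H.X a) (H.X a)) x
        * W.pull (fst (H.X a ⊗ H.X a) (H.X a) ≫ snd (H.X a) (H.X a)) y
          * W.pull (snd (H.X a ⊗ H.X a) (H.X a)) z
        = W.pull (fst (H.X a ⊗ H.X a) (H.X a)) (W.pull (fst (H.X a) (H.X a)) x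
          * W.pull (snd (H.X a) (H.X a)) y)
          * W.pull (snd (H.X a ⊗ H.X a) (H.X a)) z := by
      intro x y z
      rw [W.pull_comp, W.pull_comp, map_mul (W.pull (fst (H.X a ⊗ H.X a) (H.X a)))]
    rw [e, e]
    have e2 := GJ.J_prod H a1 a2 hG ge (.prod (.leaf a) (.leaf a)) (.leaf a)
      (W.pull (fst (H.X a) (H.X a)) x * W.pull (snd (H.X a) (H.X a)) y) z
    have e3 := GJ.J_prod H a1 a2 hG ge (.leaf a) (.leaf a) x y
    refine e2.trans ?_
    rw [show GJ.J H a1 g (.prod (.leaf a) (.leaf a)) (W.pull (fst (H.X a) (H.X a)) x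
      * W.pull (snd (H.X a) (H.X a)) y) = _ from e3]
    rfl

include ge hG hB hJ hK a2 in
/-- the conjugate is a compatible system -/
theorem jsys (hsta : StaStatement.{w}) (hRsp : RspStatement.{u, w}) :
    GM.JSys W H.X (GJ.J H a1 g) where
  gr P := (rs H a1 a2 ge hG hB hJ hK hsta hRsp P).gr
  one P := (rs H a1 a2 ge hG hB hJ hK hsta hRsp P).one
  tr P := (rs H a1 a2 ge hG hB hJ hK hsta hRsp P).tr
  surj P := surj_of_rs H (rs H a1 a2 ge hG hB hJ hK hsta hRsp P)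
  prod := GJ.J_prod H a1 a2 hG ge

include ge hG hB hJ hK a2 in
/-- multiplicativity on all products -/
theorem mul_all (hsta : StaStatement.{w}) (hRsp : RspStatement.{u, w}) (P : Prd m) :
    ∀ x y : W.coh (P.obj H.X), GJ.J H a1 g P (x * y) = GJ.J H a1 g P x * GJ.J H a1 g P y := by
  induction P with
  | leaf a => exact mul_leaf H a1 a2 ge hG hB hJ hK hsta hRsp a
  | prod P Q hP hQ =>
    exact GMpre.mul_prod H.hW (H.memP P) (H.memP Q) (GJ.J H a1 g P) (GJ.J H a1 g Q)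
      (GJ.J H a1 g (.prod P Q)) (GJ.J_prod H a1 a2 hG ge P Q)
      (rs H a1 a2 ge hG hB hJ hK hsta hRsp P).gr (rs H a1 a2 ge hG hB hJ hK hsta hRsp Q).gr hP hQ

include ge hG hB hJ hK a2 in
theorem pull_all (hsta : StaStatement.{w}) (hRsp : RspStatement.{u, w}) (P Q : Prd m)
    (f : Sch.Mor (P.obj H.X) (Q.obj H.X)) (hf : CoordMor H.X 3 P Q f) (z : W.coh (Q.obj H.X)) :
    GJ.J H a1 g P (W.pull f z) = W.pull f (GJ.J H a1 g Q z) :=
  GM.pull_coord H.hW H.mem (jsys H a1 a2 ge hG hB hJ hK hsta hRsp)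
    (fun _ => mul_all H a1 a2 ge hG hB hJ hK hsta hRsp) P Q f hf z

include ge hG hB hJ hK a2 in
theorem push_all (hsta : StaStatement.{w}) (hRsp : RspStatement.{u, w}) (P Q : Prd m)
    (f : Sch.Mor (P.obj H.X) (Q.obj H.X)) (hf : CoordMor H.X 3 P Q f) (z : W.coh (P.obj H.X)) :
    GJ.J H a1 g Q (W.push f z) = W.push f (GJ.J H a1 g P z) :=
  have S := jsys H a1 a2 ge hG hB hJ hK hsta hRsp
  GMpre.push_comm H.hW (H.memP P) (H.memP Q) (GJ.J H a1 g P) (GJ.J H a1 g Q) (S.tr P) (S.tr Q)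
    (S.surj Q) f (pull_all H a1 a2 ge hG hB hJ hK hsta hRsp P Q f hf) z

include ge hG hB hJ hK a2 in
/-- the conjugate is a Hodge-Riemann structure on the factors -/
theorem hr_leaf (hsta : StaStatement.{w}) (hRsp : RspStatement.{u, w}) (a : Fin m) :
    HRStr W (H.X a) (H.n a) (H.ξ a) (GJ.J H a1 g (.leaf a)) :=
  Conj.hrStr H.hW (H.mem a) (H.ξ_alg a) (rs H a1 a2 ge hG hB hJ hK hsta hRsp (.leaf a))
    (mul_leaf H a1 a2 ge hG hB hJ hK hsta hRsp a)

include ge hG hB hJ hK a2 in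
/-- the kernel of an operator that commutes with the conjugate is fixed -/
theorem ker_conj (hsta : StaStatement.{w}) (hRsp : RspStatement.{u, w}) (P : Prd m)
    (δ : W.coh (P.obj H.X ⊗ P.obj H.X))
    (hc : ∀ s, GJ.J H a1 g P (cor W δ s) = cor W δ (GJ.J H a1 g P s)) :
    GJ.J H a1 g (.prod P P) δ = δ :=
  have S := jsys H a1 a2 ge hG hB hJ hK hsta hRsp
  ker_fix H.hW (H.memP P) (GJ.J H a1 g P) (GJ.J H a1 g (.prod P P)) (S.surj P)
    (mul_all H a1 a2 ge hG hB hJ hK hsta hRsp (.prod P P))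
    (pull_all H a1 a2 ge hG hB hJ hK hsta hRsp (.prod P P) P _ (CoordMor.pr₁ P P))
    (push_all H a1 a2 ge hG hB hJ hK hsta hRsp (.prod P P) P _ (CoordMor.pr₂ P P)) δ hc

end ConjF

end Pool.Agent.Lib.MP_361a6f_ag.FL
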