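import Pool.Agent.Lib.MP_361a6f_ag.FL.C.StatF
import Pool.Agent.Lib.MP_361a6f_ag.FL.C.ConjF

/-!
# The matrix of a symmetry, and the antilinear ring endomorphisms that belong to it
-/

open CategoryTheory AlgebraicGeometry MonoidalCategory CartesianMonoidalCategory

universe u v w

set_option autoImplicit false
set_option linter.unusedSectionVars false

namespace Pool.Agent.Lib.MP_361a6f_ag.FL

open Pool.Agent.Lib.MP_361a6f_ag.H3 Pool.Agent.Lib.MP_361a6f_ag.SQ
  Pool.Agent.Lib.MP_361a6f_ag.IP2 Pool.Agent.Lib.MP_361a6f_ag.PP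

namespace PhiF

/-! ### Tensors -/

section ten

variable {I Λ : Type} [Fintype I] [DecidableEq I] [DecidableEq Λ] (D : Dat I Λ)
  (g : Matrix I I ℂ) (a1 : Alg1)

include a1

theorem gT_zero {L : ℕ} : gT g (0 : Ten I L) = 0 := by
  have h := a1.gT_smul g 0 (0 : Ten I L)
  rwa [zero_smul, zero_smul] at h

theorem gT_sum {L : ℕ} {κ : Type*} (s : Finset κ) (f : κ → Ten I L) :
    gT g (∑ i ∈ s, f i) = ∑ i ∈ s, gT g (f i) := by
  classical
  induction s using Finset.induction_on with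
  | empty => rw [Finset.sum_empty, Finset.sum_empty, gT_zero g a1]
  | insert a s ha ih => rw [Finset.sum_insert ha, Finset.sum_insert ha, a1.gT_add, ih]

omit a1 in
/-- supports that depend only on the letters are preserved -/
theorem gT_supp {g : Matrix I I ℂ} (hg : ∀ i j, D.typ i ≠ D.typ j → g i j = 0) {L : ℕ}
    (S : (Fin L → I) → Prop)
    (hS : ∀ w w', (∀ i, D.typ (w i) = D.typ (w' i)) → S w → S w') {u : Ten I L}
    (hu : ∀ w, S w → u w = 0) (w : Fin L → I) (hw : S w) : gT g u w = 0 := by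
  rw [gT]
  refine Finset.sum_eq_zero fun w' _ => ?_
  by_cases h : ∀ i, D.typ (w i) = D.typ (w' i)
  · rw [hu w' (hS w w' h hw), mul_zero]
  · push Not at h
    obtain ⟨i, hi⟩ := h
    rw [Finset.prod_eq_zero (Finset.mem_univ i) (hg _ _ hi), zero_mul]

omit a1 in
theorem KT_supp {g : Matrix I I ℂ} (hg : ∀ i j, D.typ i ≠ D.typ j → g i j = 0) {L : ℕ}
    (S : (Fin L → I) → Prop)
    (hS : ∀ w w', (∀ i, D.typ (w i) = D.typ (w' i)) → S w → S w') {u : Ten I L}
    (hu : ∀ w, S w → u w = 0) (w : Fin L → I) (hw : S w) : gT g (jT D u) w = 0 := by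
  refine gT_supp D hg S hS ?_ w hw
  intro w hw
  have h1 : u (D.τ ∘ w) = 0 := by
    refine hu _ (hS w _ (fun i => ?_) hw)
    rw [Function.comp_apply, D.typ_τ]
  rw [jT, h1, map_zero, mul_zero]

omit a1 in
theorem KT_outer (a2 : Alg2) {p q : ℕ} (u : Ten I p) (v : Ten I q) :
    gT g (jT D (outer u v)) = outer (gT g (jT D u)) (gT g (jT D v)) := by
  rw [a2.outer_jT, a2.outer_gT]

omit a1 in
/-- a matrix acts on tensors of length one -/
theorem gT_one_apply (u : Ten I 1) (w : Fin 1 → I) :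
    gT g u w = ∑ i, g (w 0) i * u (fun _ => i) := by
  rw [gT]
  refine (Equiv.sum_comp (Equiv.funUnique (Fin 1) I).symm _).symm.trans ?_
  refine Finset.sum_congr rfl fun i _ => ?_
  rw [Fin.prod_univ_one]
  rfl

end ten

/-! ### One factor -/

section one

variable {k : Type u} [Field k] {W : CohomologyData.{u, 0, w} k ℂ} {𝒱 : VarietyClass k}
  (hW : IsWeilCohomology W 𝒱) {X : Sch k} {n : ℕ} (hX : 𝒱.mem X n)

include hW hX in
/-- an antilinear multiplicative map that respects the trace is surjective -/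
theorem surj_of_tr {j : W.coh X →ₛₗ[starRingEnd ℂ] W.coh X} (jm : ∀ x y, j (x * y) = j x * j y)
    (jt : ∀ x, W.tr X (j x) = starRingEnd ℂ (W.tr X x)) : Function.Surjective j := by
  have _ := hW.finite hX
  refine PCA.surj_of_inj j ?_
  rw [injective_iff_map_eq_zero]
  intro x hx
  refine hW.duality hX x fun y => ?_
  have h : W.tr X (j (x * y)) = 0 := by rw [jm, hx, zero_mul, map_zero]
  rw [jt] at h
  exact (map_eq_zero _).1 h

include hW hX in
theorem one_of_tr {j : W.coh X →ₛₗ[starRingEnd ℂ] W.coh X} (jm : ∀ x y, j (x * y) = j x * j y)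
    (jt : ∀ x, W.tr X (j x) = starRingEnd ℂ (W.tr X x)) : j 1 = 1 := by
  obtain ⟨x, hx⟩ := surj_of_tr hW hX jm jt 1
  have h := jm 1 x
  rw [one_mul, hx, mul_one] at h
  exact h.symm

include hW in
theorem tr_prod {A B : Sch k} {d e : ℕ} (hA : 𝒱.mem A d) (hB : 𝒱.mem B e)
    (jA : W.coh A →ₛₗ[starRingEnd ℂ] W.coh A) (jB : W.coh B →ₛₗ[starRingEnd ℂ] W.coh B)
    (J : W.coh (A ⊗ B) →ₛₗ[starRingEnd ℂ] W.coh (A ⊗ B))
    (hJ : ∀ y x, J (W.pull (fst A B) y * W.pull (snd A B) x)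
      = W.pull (fst A B) (jA y) * W.pull (snd A B) (jB x))
    (tA : ∀ x, W.tr A (jA x) = starRingEnd ℂ (W.tr A x))
    (tB : ∀ x, W.tr B (jB x) = starRingEnd ℂ (W.tr B x)) (z : W.coh (A ⊗ B)) :
    W.tr (A ⊗ B) (J z) = starRingEnd ℂ (W.tr (A ⊗ B) z) := by
  have h2 : ∀ (y : W.coh A) (x : W.coh B),
      W.tr (A ⊗ B) (W.pull (fst A B) y * W.pull (snd A B) x) = W.tr A y * W.tr B x :=
    fun y x => hW.kunneth.trace hA hB y x
  have hz : z ∈ Submodule.span ℂ {z | ∃ (x : W.coh A) (y : W.coh B),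
      z = W.pull (fst A B) x * W.pull (snd A B) y} := by
    rw [hW.kunneth_span hA hB]; trivial
  induction hz using Submodule.span_induction with
  | mem z hz =>
    obtain ⟨y, x, rfl⟩ := hz
    rw [hJ, h2, h2, tA, tB, map_mul]
  | zero => simp only [map_zero]
  | add a b _ _ ha hb => rw [map_add, map_add, ha, hb, map_add, map_add]
  | smul c a _ ha =>
    rw [LinearMap.map_smulₛₗ, map_smul, map_smul, ha, smul_eq_mul, smul_eq_mul, map_mul]

end one

variable {k : Type u} [Field k] {W : CohomologyData.{u, 0, w} k ℂ} {𝒱 : VarietyClass k} {m : ℕ}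
  (H : Host W 𝒱 m)

/-- the matrix of the normalised symmetry -/
noncomputable def gam (s : ℂ)
    (F : ∀ P : Prd m, W.coh (P.obj H.X) →ₗ[ℂ] W.coh (P.obj H.X)) : Matrix H.I H.I ℂ :=
  Matrix.of fun i j => (s ^ (H.D.typ j).2)⁻¹ *
    H.tc (.leaf (H.D.typ i).1) (F (.leaf (H.D.typ i).1) (H.e (H.D.typ i).1 j)) (fun _ => i)

/-- the antilinear operator on the cohomology of a product with the matrix `γ` -/
noncomputable def K (a1 : Alg1) (γ : Matrix H.I H.I ℂ) (P : Prd m) :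
    W.coh (P.obj H.X) →ₛₗ[starRingEnd ℂ] W.coh (P.obj H.X) where
  toFun z := ∑ w, gT γ (jT H.D (H.tc P z)) w • H.E P w
  map_add' x y := by
    rw [map_add, a1.jT_add, a1.gT_add, ← Finset.sum_add_distrib]
    refine Finset.sum_congr rfl fun w _ => ?_
    rw [Pi.add_apply, add_smul]
  map_smul' c x := by
    rw [map_smul, a1.jT_smul, a1.gT_smul, Finset.smul_sum]
    refine Finset.sum_congr rfl fun w _ => ?_
    rw [Pi.smul_apply, smul_assoc]

section sys

variable (a1 : Alg1) (a2 : Alg2) {γ : Matrix H.I H.I ℂ}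
  (hl : ∀ i j, H.D.typ i ≠ H.D.typ j → γ i j = 0) (ge : H.GeFacts)

theorem K_apply (P : Prd m) (z : W.coh (P.obj H.X)) :
    K H a1 γ P z = ∑ w, gT γ (jT H.D (H.tc P z)) w • H.E P w := rfl

include hl ge in
theorem tc_K (P : Prd m) (z : W.coh (P.obj H.X)) :
    H.tc P (K H a1 γ P z) = gT γ (jT H.D (H.tc P z)) := by
  rw [K_apply]
  refine ge.tc_sum P _ ?_
  refine KT_supp H.D hl (H.Off P) ?_ (ge.tc_off P z)
  rintro w w' h ⟨i, hi⟩
  exact ⟨i, by rw [← h i]; exact hi⟩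

include hl ge a2 in
theorem K_prod (P Q : Prd m) (y : W.coh (P.obj H.X)) (x : W.coh (Q.obj H.X)) :
    K H a1 γ (.prod P Q) (W.pull (fst (P.obj H.X) (Q.obj H.X)) y
        * W.pull (snd (P.obj H.X) (Q.obj H.X)) x)
      = W.pull (fst (P.obj H.X) (Q.obj H.X)) (K H a1 γ P y)
        * W.pull (snd (P.obj H.X) (Q.obj H.X)) (K H a1 γ Q x) := by
  refine ge.inj (.prod P Q) ?_
  rw [tc_K H a1 hl ge, ge.tc_outer, ge.tc_outer, tc_K H a1 hl ge, tc_K H a1 hl ge]
  exact KT_outer H.D γ a2 _ _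

include hl ge in
theorem K_gr (hsta : StaStatement.{w}) (P : Prd m) (i : ℕ) (x : W.coh (P.obj H.X))
    (hx : x ∈ W.gr (P.obj H.X) i) : K H a1 γ P x ∈ W.gr (P.obj H.X) i := by
  rw [K_apply]
  refine Submodule.sum_mem _ fun w _ => ?_
  by_cases hw : ∑ l, (H.D.typ (w l)).2 = i
  · refine Submodule.smul_mem _ _ ?_
    rw [← hw]
    exact ge.E_gr P w
  · have h1 : gT γ (jT H.D (H.tc P x)) w = 0 := by
      refine KT_supp H.D hl (fun w => ∑ l, (H.D.typ (w l)).2 ≠ i) ?_
        (fun w hw => GJ.tc_gr H ge hsta P hx w hw) w hw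
      intro w w' h hw
      have h2 : ∑ l, (H.D.typ (w' l)).2 = ∑ l, (H.D.typ (w l)).2 :=
        Finset.sum_congr rfl fun l _ => by rw [h l]
      exact fun h3 => hw (h2.symm.trans h3)
    rw [h1, zero_smul]
    exact zero_mem _

variable (hsta : StaStatement.{w})
  (hm : ∀ (a : Fin m) (x y : W.coh (H.X a)), K H a1 γ (.leaf a) (x * y)
    = K H a1 γ (.leaf a) x * K H a1 γ (.leaf a) y)
  (ht : ∀ (a : Fin m) (x : W.coh (H.X a)), W.tr (H.X a) (K H a1 γ (.leaf a) x)
    = starRingEnd ℂ (W.tr (H.X a) x))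

include hl ge a2 hsta hm in
theorem K_mul (P : Prd m) : ∀ x y : W.coh (P.obj H.X),
    K H a1 γ P (x * y) = K H a1 γ P x * K H a1 γ P y := by
  induction P with
  | leaf a => exact hm a
  | prod P Q hP hQ =>
    exact GMpre.mul_prod H.hW (H.memP P) (H.memP Q) (K H a1 γ P) (K H a1 γ Q)
      (K H a1 γ (.prod P Q)) (K_prod H a1 a2 hl ge P Q) (K_gr H a1 hl ge hsta P)
      (K_gr H a1 hl ge hsta Q) hP hQ

include hl ge a2 ht in
theorem K_tr (P : Prd m) : ∀ x : W.coh (P.obj H.X),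
    W.tr (P.obj H.X) (K H a1 γ P x) = starRingEnd ℂ (W.tr (P.obj H.X) x) := by
  induction P with
  | leaf a => exact ht a
  | prod P Q hP hQ =>
    exact tr_prod H.hW (H.memP P) (H.memP Q) (K H a1 γ P) (K H a1 γ Q) (K H a1 γ (.prod P Q))
      (K_prod H a1 a2 hl ge P Q) hP hQ

include hl ge a2 hsta hm ht in
theorem K_surj (P : Prd m) : Function.Surjective (K H a1 γ P) :=
  surj_of_tr H.hW (H.memP P) (K_mul H a1 a2 hl ge hsta hm P) (K_tr H a1 a2 hl ge ht P)

include hl ge a2 hsta hm ht in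
theorem K_one (P : Prd m) : K H a1 γ P 1 = 1 :=
  one_of_tr H.hW (H.memP P) (K_mul H a1 a2 hl ge hsta hm P) (K_tr H a1 a2 hl ge ht P)

include hl ge a2 hsta hm ht in
theorem K_jsys : GM.JSys W H.X (K H a1 γ) where
  gr := K_gr H a1 hl ge hsta
  one := K_one H a1 a2 hl ge hsta hm ht
  tr P x y := by rw [← K_mul H a1 a2 hl ge hsta hm P, K_tr H a1 a2 hl ge ht P]
  surj := K_surj H a1 a2 hl ge hsta hm ht
  prod := K_prod H a1 a2 hl ge

include hl ge a2 hsta hm ht in
/-- the antilinear ring endomorphisms -/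
theorem kfacts (hp : ∀ a, K H a1 γ (.leaf a) (H.ξ a) = H.ξ a) :
    ConjF.KFacts H γ (K H a1 γ) := by
  have S := K_jsys H a1 a2 hl ge hsta hm ht
  have hpb := fun (P Q : Prd m) (f : Sch.Mor (P.obj H.X) (Q.obj H.X))
      (hf : CoordMor H.X 3 P Q f) =>
    GM.pull_coord H.hW H.mem S (fun _ => K_mul H a1 a2 hl ge hsta hm) P Q f hf
  exact
    { tc := tc_K H a1 hl ge
      surj := S.surj
      gr := S.gr
      one := S.one
      mul := K_mul H a1 a2 hl ge hsta hm
      pol := hp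
      pull := hpb
      push := fun P Q f hf =>
        GMpre.push_comm H.hW (H.memP P) (H.memP Q) (K H a1 γ P) (K H a1 γ Q) (S.tr P) (S.tr Q)
          (S.surj Q) f (hpb P Q f hf) }

end sys

end PhiF

end Pool.Agent.Lib.MP_361a6f_ag.FL
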